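import Pool.Agent.Y112.QB.Grp

/-!
# The Casimir element of the trace form of a finite group
-/

open Finset

namespace Pool.Agent.Y112.QB

variable {K : Type*} [Field K] [CharZero K] {V : Type*} [AddCommGroup V] [Module K V]
  [Module.Finite K V] {G : Type*} [Group G] [Fintype G]

/-- The trace form on the image of the group algebra is nondegenerate. -/
lemma trace_nondeg' {b : G →* Module.End K V}
    (x : MonoidAlgebra K G) (hx : ∀ g, LinearMap.trace K V (toEnd b x * b g) = 0) :
    toEnd b x = 0 := by
  have hx' : ∀ y : MonoidAlgebra K G, LinearMap.trace K V (toEnd b x * toEnd b y) = 0 := by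
    intro y
    rw [toEnd_apply b y, Finset.mul_sum, map_sum]
    refine Finset.sum_eq_zero fun g _ => ?_
    rw [mul_smul_comm (y.coeff g) (toEnd b x) (b g), map_smul, hx, smul_zero]
  have : NeZero (Nat.card G : K) := ⟨by
    rw [Nat.card_eq_fintype_card]
    exact_mod_cast Fintype.card_ne_zero⟩
  set J : Submodule (MonoidAlgebra K G) (MonoidAlgebra K G) :=
    Submodule.span (MonoidAlgebra K G) {x} with hJ
  obtain ⟨J', hJ'⟩ := exists_isCompl J
  have hxJ : x ∈ J := Submodule.subset_span rfl
  obtain ⟨e, he, e', he', h1⟩ := Submodule.mem_sup.1 (hJ'.sup_eq_top ▸ Submodule.mem_top :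
    (1 : MonoidAlgebra K G) ∈ J ⊔ J')
  have hdis : ∀ y, y ∈ J → y ∈ J' → y = 0 := fun y h2 h3 => by
    have : y ∈ J ⊓ J' := ⟨h2, h3⟩
    rw [hJ'.inf_eq_bot] at this
    exact (Submodule.mem_bot _).1 this
  have hmul : ∀ y ∈ J, y * e = y := by
    intro y hy
    have h2 : y * e + y * e' = y := by rw [← mul_add, h1, mul_one]
    have h3 : y * e' = 0 := by
      apply hdis
      · have h4 : y * e' = y - y * e := by rw [← h2]; abel_nf; rw [h2]; abel
        rw [h4]
        exact Submodule.sub_mem _ hy (Submodule.smul_mem _ y he)
      · exact Submodule.smul_mem _ y he'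
    rw [h3, add_zero] at h2
    exact h2
  obtain ⟨a, ha⟩ := Submodule.mem_span_singleton.1 he
  have h5 : toEnd b e = 0 := by
    apply idem_trace
    · rw [← map_mul, hmul e he]
    · rw [← ha, smul_eq_mul, map_mul, LinearMap.trace_mul_comm]
      exact hx' a
  rw [← hmul x hxJ, map_mul, h5, mul_zero]

omit [CharZero K] [Module.Finite K V] in
lemma exists_toEnd {b : G →* Module.End K V} {u : Module.End K V}
    (hu : u ∈ Submodule.span K (Set.range b)) : ∃ x, toEnd b x = u := by
  induction hu using Submodule.span_induction with
  | mem u hu =>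
    obtain ⟨g, rfl⟩ := hu
    refine ⟨MonoidAlgebra.single g 1, ?_⟩
    rw [toEnd, MonoidAlgebra.lift_single, one_smul]
  | zero => exact ⟨0, map_zero _⟩
  | add u v _ _ hu hv =>
    obtain ⟨x, rfl⟩ := hu
    obtain ⟨y, rfl⟩ := hv
    exact ⟨x + y, map_add _ _ _⟩
  | smul c u _ hu =>
    obtain ⟨x, rfl⟩ := hu
    exact ⟨c • x, map_smul _ _ _⟩

/-- **The Casimir element.** -/
theorem exists_casimir (b : G →* Module.End K V) :
    ∃ (n : ℕ) (u v : Fin n → Module.End K V),
      (∀ j, u j ∈ Submodule.span K (Set.range b)) ∧
      (∀ j, v j ∈ Submodule.span K (Set.range b)) ∧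
      ∀ g, b g = ∑ j, LinearMap.trace K V (b g * u j) • v j := by
  set U : Submodule K (Module.End K V) := Submodule.span K (Set.range b) with hU
  let B : U →ₗ[K] Module.Dual K U :=
    { toFun := fun u =>
        { toFun := fun v => LinearMap.trace K V ((v : Module.End K V) * (u : Module.End K V))
          map_add' := fun v w => by
            rw [Submodule.coe_add, add_mul, map_add]
          map_smul' := fun c v => by
            rw [Submodule.coe_smul, smul_mul_assoc, map_smul, RingHom.id_apply] }
      map_add' := fun u w => by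
        apply LinearMap.ext
        intro v
        change LinearMap.trace K V ((v : Module.End K V) * ((u + w : U) : Module.End K V)) =
          LinearMap.trace K V ((v : Module.End K V) * (u : Module.End K V)) +
          LinearMap.trace K V ((v : Module.End K V) * (w : Module.End K V))
        rw [Submodule.coe_add, mul_add, map_add]
      map_smul' := fun c u => by
        apply LinearMap.ext
        intro v
        change LinearMap.trace K V ((v : Module.End K V) * ((c • u : U) : Module.End K V)) =
          c • LinearMap.trace K V ((v : Module.End K V) * (u : Module.End K V))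
        rw [Submodule.coe_smul, mul_smul_comm, map_smul] }
  have hB : ∀ u v : U, B u v = LinearMap.trace K V ((v : Module.End K V) * (u : Module.End K V)) :=
    fun _ _ => rfl
  have hinj : Function.Injective B := by
    rw [← LinearMap.ker_eq_bot, LinearMap.ker_eq_bot']
    intro u hu
    obtain ⟨x, hx⟩ := exists_toEnd (b := b) u.2
    apply Subtype.ext
    change (u : Module.End K V) = 0
    rw [← hx]
    apply trace_nondeg'
    intro g
    have h1 := congrArg (fun F => F (⟨b g, Submodule.subset_span ⟨g, rfl⟩⟩ : U)) hu
    rw [LinearMap.trace_mul_comm, hx]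
    exact h1
  have hsurj : Function.Surjective B :=
    (LinearMap.injective_iff_surjective_of_finrank_eq_finrank
      (Subspace.dual_finrank_eq (K := K) (V := U)).symm).1 hinj
  let bs := Module.finBasis K U
  choose u hu using fun j => hsurj (bs.coord j)
  refine ⟨Module.finrank K U, fun j => (u j : Module.End K V), fun j => (bs j : Module.End K V),
    fun j => (u j).2, fun j => (bs j).2, fun g => ?_⟩
  have h1 := bs.sum_repr (⟨b g, Submodule.subset_span ⟨g, rfl⟩⟩ : U)
  have h2 := congrArg (fun w : U => (w : Module.End K V)) h1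
  simp only [Submodule.coe_sum, Submodule.coe_smul] at h2
  rw [← h2]
  refine Finset.sum_congr rfl fun j _ => ?_
  congr 1
  have h3 := hB (u j) ⟨b g, Submodule.subset_span ⟨g, rfl⟩⟩
  rw [hu j] at h3
  rw [h2]
  exact h3

end Pool.Agent.Y112.QB
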