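import Pool.Agent.Y112.QB.Top
import Pool.Agent.Y112.QB.Cas
import Pool.Agent.TH133.PW.Ev
import Pool.Agent.H447R3.SpC

/-!
# The sign conjecture for the invariants of a product
-/

open CategoryTheory AlgebraicGeometry

universe u v

namespace Pool.Agent.Y112.QB

open Pool.Agent.H914 VarClass Obj WeilCohomology Pool.Agent.H447 Pool.Agent.TH133.PW

variable {k : Type u} [Field k] {𝒱 : VarClass k} {ops : CycleOps 𝒱}
  {W : WeilCohomology.{u, v} ops} {X Y Z : 𝒱.Obj} {G : Type} [Group G]

/-- The operator `∑ tr(α_g α_h | H(Y)) α_g` on `H(X)`. -/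
noncomputable def tw [Fintype G] (W : WeilCohomology.{u, v} ops) (ρ : G →* End X) (σ : G →* End Y)
    (h : G) : Module.End W.K (W.H X) :=
  ∑ g, LinearMap.trace W.K (W.H Y) (act W σ g * act W σ h) • act W ρ g

lemma act_inv_eq (ρ : G →* End X) (g : G) : act W ρ g⁻¹ = (W.map (ρ g)).toLinearMap := by
  change (W.map (ρ g⁻¹⁻¹)).toLinearMap = _
  rw [inv_inv]

lemma twist_eq [Fintype G] (ρ : G →* End X) (σ : G →* End Y) (h : G) :
    twist W ρ σ h = tw W ρ σ h⁻¹ := by
  rw [twist, tw]
  refine Fintype.sum_equiv (Equiv.inv G) _ _ fun g => ?_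
  rw [Equiv.inv_apply, ← act_inv_eq, ← act_inv_eq, mul_inv_rev, map_mul (act W σ),
    LinearMap.trace_mul_comm]

lemma tw_mem [Fintype G] (ρ : G →* End X) (σ : G →* End Y) (h : G) :
    tw W ρ σ h ∈ KOp W X X 0 :=
  Submodule.sum_mem _ fun g _ => Submodule.smul_mem _ _ (act_mem ρ g)

lemma kmul {d e : ℤ} {φ ψ : Module.End W.K (W.H X)} (hφ : φ ∈ KOp W X X d)
    (hψ : ψ ∈ KOp W X X e) : φ * ψ ∈ KOp W X X (d + e) :=
  KOp.cast (KOp.comp hφ hψ) (by ring)

/-- **The slices of an algebraic operator, general case.** -/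
theorem slice_gen [Fintype G] {ρ : G →* End X} {σ : G →* End Y} {d : ℤ}
    {φ : Module.End W.K (W.H X)} (hT : ∑ g, extOp W (φ * act W ρ g)
      (par (W.isInternal Y) * act W σ g) ∈ KOp W (X.prod Y) (X.prod Y) d) (h : G) :
    φ * tw W ρ σ h ∈ KOp W X X d := by
  have h1 : extOp W (1 : Module.End W.K (W.H X)) (act W σ h) ∈ KOp W (X.prod Y) (X.prod Y) 0 :=
    KOp.cast (KOp.ext (KOp.id X) (act_mem σ h)) (by ring)
  have h2 := kmul hT h1
  rw [add_zero] at h2
  have h3 := kop_ptr h2
  rw [Finset.sum_mul, map_sum] at h3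
  have e4 : ∀ g, ptr W X Y (extOp W (φ * act W ρ g) (par (W.isInternal Y) * act W σ g) *
      extOp W (1 : Module.End W.K (W.H X)) (act W σ h)) =
      LinearMap.trace W.K (W.H Y) (act W σ g * act W σ h) • (φ * act W ρ g) := by
    intro g
    rw [extOp_mul, mul_one, ptr_extOp, st_apply, mul_assoc, ← mul_assoc (par _), par_mul_par,
      one_mul]
  simp only [e4] at h3
  have e5 : φ * tw W ρ σ h = ∑ g, LinearMap.trace W.K (W.H Y) (act W σ g * act W σ h) •
      (φ * act W ρ g) := by
    rw [tw, Finset.mul_sum]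
    exact Finset.sum_congr rfl fun g _ => mul_smul_comm _ _ _
  rw [e5]
  exact h3

lemma span_act_mem {σ : G →* End Y} {v : Module.End W.K (W.H Y)}
    (hv : v ∈ Submodule.span W.K (Set.range (act W σ))) : v ∈ KOp W Y Y 0 := by
  refine (Submodule.span_le.2 ?_) hv
  rintro _ ⟨g, rfl⟩
  exact act_mem σ g

lemma extOp_sum_left {ι : Type*} (s : Finset ι) (φ : ι → Module.End W.K (W.H X))
    (ψ : Module.End W.K (W.H Y)) : extOp W (∑ i ∈ s, φ i) ψ = ∑ i ∈ s, extOp W (φ i) ψ := by
  classical
  induction s using Finset.induction_on with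
  | empty => rw [Finset.sum_empty, Finset.sum_empty, extOp_zero_left]
  | insert a s ha ih => rw [Finset.sum_insert ha, Finset.sum_insert ha, extOp_add_left, ih]

lemma extOp_zero_right (φ : Module.End W.K (W.H X)) :
    extOp W φ (0 : Module.End W.K (W.H Y)) = 0 := by
  have h := extOp_smul_right (0 : W.K) φ (0 : Module.End W.K (W.H Y))
  rwa [zero_smul, zero_smul] at h

lemma extOp_sum_right {ι : Type*} (s : Finset ι) (φ : Module.End W.K (W.H X))
    (ψ : ι → Module.End W.K (W.H Y)) : extOp W φ (∑ i ∈ s, ψ i) = ∑ i ∈ s, extOp W φ (ψ i) := by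
  classical
  induction s using Finset.induction_on with
  | empty => rw [Finset.sum_empty, Finset.sum_empty, extOp_zero_right]
  | insert a s ha ih => rw [Finset.sum_insert ha, Finset.sum_insert ha, extOp_add_right, ih]

lemma mul_tw_span [Fintype G] {ρ : G →* End X} {σ : G →* End Y} {d : ℤ}
    {φ : Module.End W.K (W.H X)} (hφ : ∀ h, φ * tw W ρ σ h ∈ KOp W X X d)
    {u : Module.End W.K (W.H Y)} (hu : u ∈ Submodule.span W.K (Set.range (act W σ))) :
    ∑ g, LinearMap.trace W.K (W.H Y) (act W σ g * u) • (φ * act W ρ g) ∈ KOp W X X d := by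
  induction hu using Submodule.span_induction with
  | mem u hu =>
    obtain ⟨h, rfl⟩ := hu
    have := hφ h
    rw [tw, Finset.mul_sum] at this
    simpa only [mul_smul_comm] using this
  | zero =>
    simp only [mul_zero, map_zero, zero_smul, Finset.sum_const_zero]
    exact Submodule.zero_mem _
  | add u v _ _ hu hv =>
    simp only [mul_add, map_add, add_smul, Finset.sum_add_distrib]
    exact Submodule.add_mem _ hu hv
  | smul c u _ hu =>
    have : ∀ g, LinearMap.trace W.K (W.H Y) (act W σ g * c • u) • (φ * act W ρ g) =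
        c • (LinearMap.trace W.K (W.H Y) (act W σ g * u) • (φ * act W ρ g)) := by
      intro g
      rw [mul_smul_comm, map_smul, smul_assoc]
    simp only [this]
    rw [← Finset.smul_sum]
    exact Submodule.smul_mem _ _ hu

/-- **Gluing**, first factor. -/
theorem glue [Fintype G] {ρ : G →* End X} {σ : G →* End Y} {d : ℤ}
    {φ : Module.End W.K (W.H X)} (hφ : ∀ h, φ * tw W ρ σ h ∈ KOp W X X d) :
    ∑ g, extOp W (φ * act W ρ g) (act W σ g) ∈ KOp W (X.prod Y) (X.prod Y) d := by
  obtain ⟨n, p, q, hp, hq, h1⟩ := exists_casimir (act W σ)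
  have e1 : ∑ g, extOp W (φ * act W ρ g) (act W σ g) =
      ∑ j, extOp W (∑ g, LinearMap.trace W.K (W.H Y) (act W σ g * p j) • (φ * act W ρ g))
        (q j) := by
    have e2 : ∀ g, extOp W (φ * act W ρ g) (act W σ g) =
        ∑ j, LinearMap.trace W.K (W.H Y) (act W σ g * p j) • extOp W (φ * act W ρ g) (q j) := by
      intro g
      conv_lhs => rw [h1 g]
      rw [extOp_sum_right]
      exact Finset.sum_congr rfl fun j _ => extOp_smul_right _ _ _
    simp only [e2]
    rw [Finset.sum_comm]
    refine Finset.sum_congr rfl fun j _ => ?_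
    rw [extOp_sum_left]
    exact Finset.sum_congr rfl fun g _ => (extOp_smul_left _ _ _).symm
  rw [e1]
  exact Submodule.sum_mem _ fun j _ => KOp.cast (KOp.ext (mul_tw_span hφ (hp j))
    (span_act_mem (hq j))) (by ring)

/-- **Gluing**, second factor. -/
theorem glue' [Fintype G] {ρ : G →* End X} {σ : G →* End Y} {d : ℤ}
    {ψ : Module.End W.K (W.H Y)} (hψ : ∀ h, ψ * tw W σ ρ h ∈ KOp W Y Y d) :
    ∑ g, extOp W (act W ρ g) (ψ * act W σ g) ∈ KOp W (X.prod Y) (X.prod Y) d := by
  obtain ⟨n, p, q, hp, hq, h1⟩ := exists_casimir (act W ρ)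
  have e1 : ∑ g, extOp W (act W ρ g) (ψ * act W σ g) =
      ∑ j, extOp W (q j)
        (∑ g, LinearMap.trace W.K (W.H X) (act W ρ g * p j) • (ψ * act W σ g)) := by
    have e2 : ∀ g, extOp W (act W ρ g) (ψ * act W σ g) =
        ∑ j, LinearMap.trace W.K (W.H X) (act W ρ g * p j) • extOp W (q j) (ψ * act W σ g) := by
      intro g
      conv_lhs => rw [h1 g]
      rw [extOp_sum_left]
      exact Finset.sum_congr rfl fun j _ => extOp_smul_left _ _ _
    simp only [e2]
    rw [Finset.sum_comm]
    refine Finset.sum_congr rfl fun j _ => ?_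
    rw [extOp_sum_right]
    exact Finset.sum_congr rfl fun g _ => (extOp_smul_right _ _ _).symm
  rw [e1]
  exact Submodule.sum_mem _ fun j _ => KOp.cast (KOp.ext (span_act_mem (hq j))
    (mul_tw_span hψ (hp j))) (by ring)

/-- Algebraic operators commute with the sign. -/
lemma kop_par {d : ℤ} {φ : W.H X →ₗ[W.K] W.H Y} (hφ : φ ∈ KOp W X Y d) (x : W.H X) :
    par (W.isInternal Y) (φ x) = φ (par (W.isInternal X) x) := by
  refine gr_induction (W.isInternal X) (p := fun x =>
    par (W.isInternal Y) (φ x) = φ (par (W.isInternal X) x)) ?_ ?_ x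
  · intro i a ha
    have h1 := KOp.isHom hφ i a (by rw [grZ_natCast]; exact ha)
    rw [par, par, scal_apply _ _ ha, map_smul]
    by_cases hi : 0 ≤ (i : ℤ) + 2 * d
    · obtain ⟨j, hj⟩ := Int.eq_ofNat_of_zero_le hi
      rw [hj, grZ_natCast] at h1
      rw [scal_apply _ _ h1]
      congr 1
      rcases Nat.even_or_odd i with he | ho
      · have : Even j := by
          obtain ⟨r, hr⟩ := he
          have : (j : ℤ) = (r + d) + (r + d) := by rw [← hj, hr]; push_cast; ring
          exact (Int.even_coe_nat j).1 ⟨_, this⟩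
        rw [he.neg_one_pow, this.neg_one_pow]
      · have : Odd j := by
          obtain ⟨r, hr⟩ := ho
          have : (j : ℤ) = 2 * (r + d) + 1 := by rw [← hj, hr]; push_cast; ring
          exact (Int.odd_coe_nat j).1 ⟨_, this⟩
        rw [ho.neg_one_pow, this.neg_one_pow]
    · rw [grZ_of_neg (by omega)] at h1
      rw [(Submodule.mem_bot _).1 h1, map_zero, smul_zero]
  · intro a b ha hb
    rw [map_add, map_add, ha, hb, map_add, map_add]

/-- The even projector and the sign. -/
lemma two_evenProj : (2 : W.K) • evenProj (W.isInternal X) = 1 + par (W.isInternal X) := by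
  apply gr_ext (W.isInternal X)
  intro j a ha
  rw [LinearMap.smul_apply, evenProj, scal_apply _ _ ha, LinearMap.add_apply,
    Module.End.one_apply, par, scal_apply _ _ ha]
  split_ifs with hj
  · rw [hj.neg_one_pow, one_smul, two_smul]
  · rw [(Nat.not_even_iff_odd.1 hj).neg_one_pow, zero_smul, smul_zero, neg_one_smul,
      add_neg_cancel]

lemma two_ne : (2 : W.K) ≠ 0 := two_ne_zero

lemma evenProj_mul_mem {φ : Module.End W.K (W.H X)} (hφ : φ ∈ KOp W X X 0) :
    evenProj (W.isInternal X) * φ ∈ KOp W X X 0 ↔ par (W.isInternal X) * φ ∈ KOp W X X 0 := by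
  have h1 : (2 : W.K) • (evenProj (W.isInternal X) * φ) = φ + par (W.isInternal X) * φ := by
    rw [← smul_mul_assoc, two_evenProj, add_mul, one_mul]
  constructor
  · intro h
    have h2 := Submodule.sub_mem _ (Submodule.smul_mem _ (2 : W.K) h) hφ
    rwa [h1, add_sub_cancel_left] at h2
  · intro h
    have h2 := Submodule.smul_mem _ ((2 : W.K)⁻¹) (Submodule.add_mem _ hφ h)
    rwa [← h1, smul_smul, inv_mul_cancel₀ two_ne, one_smul] at h2

/-- The sign conjecture in terms of the sign. -/
lemma sign_iff_par : SignStd W X ↔ par (W.isInternal X) ∈ KOp W X X 0 := by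
  constructor
  · intro h
    exact KOp.ofRop (par_rop_of_sign h)
  · intro h
    apply signStd_of_span
    refine ⟨evenProj (W.isInternal X), ?_, ?_⟩
    · rw [span_cycleOperators0]
      have h1 := (evenProj_mul_mem (X := X) (φ := 1) (KOp.id X)).2 (by rwa [mul_one])
      rwa [mul_one] at h1
    · intro j a ha
      rw [evenProj, scal_apply _ _ ha]
      split_ifs with hj
      · rw [one_smul]
      · rw [zero_smul]

lemma signOnPart_iff [Fintype G] {ρ : G →* End X} {σ : G →* End Y} :
    SignOnPart W ρ σ ↔ ∀ h, par (W.isInternal X) * tw W ρ σ h ∈ KOp W X X 0 := by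
  have key : ∀ h, (∃ γ ∈ spanCycles W (X.prod X) X.dim, ∀ i, ∀ x ∈ W.gr X i,
      W.corr γ x = if Even i then twist W ρ σ h x else 0) ↔
      evenProj (W.isInternal X) * tw W ρ σ h⁻¹ ∈ KOp W X X 0 := by
    intro h
    have hdeg : ∀ i, ∀ x ∈ W.gr X i, tw W ρ σ h⁻¹ x ∈ W.gr X i := by
      intro i x hx
      have := KOp.isHom (tw_mem (W := W) ρ σ h⁻¹) i x (by rw [grZ_natCast]; exact hx)
      rwa [mul_zero, add_zero, grZ_natCast] at this
    have hval : ∀ i, ∀ x ∈ W.gr X i, (evenProj (W.isInternal X) * tw W ρ σ h⁻¹) x =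
        if Even i then twist W ρ σ h x else 0 := by
      intro i x hx
      rw [Module.End.mul_apply, evenProj, scal_apply _ _ (hdeg i x hx), twist_eq]
      split_ifs with hi
      · rw [one_smul]
      · rw [zero_smul]
    rw [mem_KOp_iff, add_zero]
    constructor
    · rintro ⟨γ, hγ, h1⟩
      refine ⟨γ, hγ, ?_⟩
      apply gr_ext (W.isInternal X)
      intro i x hx
      rw [h1 i x hx, hval i x hx]
    · rintro ⟨γ, hγ, h1⟩
      refine ⟨γ, hγ, fun i x hx => ?_⟩
      rw [h1, hval i x hx]
  constructor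
  · intro h g
    have h1 := (key g⁻¹).1 (h g⁻¹)
    rw [inv_inv] at h1
    exact (evenProj_mul_mem (tw_mem ρ σ g)).1 h1
  · intro h g
    exact (key g).2 ((evenProj_mul_mem (tw_mem ρ σ g⁻¹)).2 (h g⁻¹))

lemma containsInvariants_iff [Fintype G] {ρ : G →* End X} {σ : G →* End Y} :
    ContainsInvariants W ρ σ Z ↔ ∃ d : ℤ, ∃ a ∈ KOp W (X.prod Y) Z d,
      ∃ b ∈ KOp W Z (X.prod Y) (-d), b ∘ₗ a = avg W ρ σ := by
  constructor
  · rintro ⟨d, α, hα, β, hβ, h⟩
    refine ⟨d, _, mem_KOp_iff.2 ⟨α, hα, rfl⟩, _, mem_KOp_iff.2 ⟨β, ?_, rfl⟩, ?_⟩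
    · rw [← sub_eq_add_neg]
      exact hβ
    · apply LinearMap.ext
      intro x
      rw [LinearMap.comp_apply, h, avg_eq]
  · rintro ⟨d, a, ha, b, hb, h⟩
    obtain ⟨α, hα, rfl⟩ := mem_KOp_iff.1 ha
    obtain ⟨β, hβ, rfl⟩ := mem_KOp_iff.1 hb
    rw [← sub_eq_add_neg] at hβ
    refine ⟨d, α, hα, β, hβ, fun x => ?_⟩
    rw [avg_eq, ← h, LinearMap.comp_apply]

lemma ContainsInvariants.symm [Fintype G] {ρ : G →* End X} {σ : G →* End Y}
    (h : ContainsInvariants W ρ σ Z) : ContainsInvariants W σ ρ Z := by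
  obtain ⟨d, a, ha, b, hb, h1⟩ := containsInvariants_iff.1 h
  have hs : ∀ (X Y : 𝒱.Obj), (W.map (swap X Y)).toLinearMap ∈ KOp W (Y.prod X) (X.prod Y) 0 :=
    fun X Y => (Pool.Agent.W534.qop_pull (W := W) (swap X Y)).kop
  refine containsInvariants_iff.2 ⟨d, a ∘ₗ (W.map (swap X Y)).toLinearMap,
    KOp.cast (KOp.comp ha (hs X Y)) (by ring), (W.map (swap Y X)).toLinearMap ∘ₗ b,
    KOp.cast (KOp.comp (hs Y X) hb) (by ring), ?_⟩
  apply LinearMap.ext
  intro x
  have h2 := congrArg (fun A => A (W.map (swap X Y) x)) h1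
  simp only [LinearMap.comp_apply] at h2
  simp only [LinearMap.comp_apply, AlgHom.toLinearMap_apply]
  rw [h2, ← avg_eq, ← avg_eq, map_sum]
  refine Finset.sum_congr rfl fun g _ => ?_
  rw [← W.map_comp, ← W.map_comp, ← bi_swap, Category.assoc, swap_swap, Category.comp_id]

lemma IsQuotient.contains [Fintype G] {ρ : G →* End X} {σ : G →* End Y} {π : X.prod Y ⟶ Z}
    (h : IsQuotient W ρ σ π) : ContainsInvariants W ρ σ Z := by
  refine containsInvariants_iff.2 ⟨0, _, kop_push h, (W.map π).toLinearMap,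
    KOp.cast (kop_map π) (by ring), ?_⟩
  apply LinearMap.ext
  intro x
  rw [LinearMap.comp_apply, AlgHom.toLinearMap_apply, h.pp]

lemma par_avg_sum [Fintype G] (ρ : G →* End X) (σ : G →* End Y) :
    par (W.isInternal (X.prod Y)) * avg W ρ σ =
      ∑ g, extOp W (par (W.isInternal X) * act W ρ g) (par (W.isInternal Y) * act W σ g) := by
  rw [par_prod, avg, Finset.mul_sum]
  exact Finset.sum_congr rfl fun g _ => extOp_mul _ _ _ _

/-- From the sign of `Z` to the sign on the invariants. -/
lemma par_avg_of_contains [Fintype G] {ρ : G →* End X} {σ : G →* End Y}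
    (h : ContainsInvariants W ρ σ Z) (hZ : par (W.isInternal Z) ∈ KOp W Z Z 0) :
    par (W.isInternal (X.prod Y)) * avg W ρ σ ∈ KOp W (X.prod Y) (X.prod Y) 0 := by
  obtain ⟨d, a, ha, b, hb, h1⟩ := containsInvariants_iff.1 h
  have e : par (W.isInternal (X.prod Y)) * avg W ρ σ = b ∘ₗ par (W.isInternal Z) ∘ₗ a := by
    apply LinearMap.ext
    intro x
    rw [Module.End.mul_apply, ← h1, LinearMap.comp_apply, LinearMap.comp_apply,
      LinearMap.comp_apply, kop_par hb]
  rw [e]
  exact KOp.cast (KOp.comp hb (KOp.comp hZ ha)) (by ring)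

/-- Part one. -/
theorem parts_of_contains [Fintype G] {ρ : G →* End X} {σ : G →* End Y}
    (h : ContainsInvariants W ρ σ Z) (hZ : SignStd W Z) :
    SignOnPart W ρ σ ∧ SignOnPart W σ ρ := by
  have key : ∀ {X Y : 𝒱.Obj} {ρ : G →* End X} {σ : G →* End Y},
      ContainsInvariants W ρ σ Z → SignOnPart W ρ σ := by
    intro X Y ρ σ h
    refine signOnPart_iff.2 (slice_gen ?_)
    rw [← par_avg_sum]
    exact par_avg_of_contains h (sign_iff_par.1 hZ)
  exact ⟨key h, key h.symm⟩

/-- From the parts to the sign on the invariants. -/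
theorem par_avg_of_parts [Fintype G] {ρ : G →* End X} {σ : G →* End Y}
    (h1 : SignOnPart W ρ σ) (h2 : SignOnPart W σ ρ) :
    par (W.isInternal (X.prod Y)) * avg W ρ σ ∈ KOp W (X.prod Y) (X.prod Y) 0 := by
  have hA := glue (signOnPart_iff.1 h1)
  have hB := glue' (signOnPart_iff.1 h2)
  have h3 := kmul hA hB
  have hc : (Fintype.card G : W.K) ≠ 0 := by exact_mod_cast Fintype.card_ne_zero
  have e : (∑ g, extOp W (par (W.isInternal X) * act W ρ g) (act W σ g)) *
      (∑ g, extOp W (act W ρ g) (par (W.isInternal Y) * act W σ g)) =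
      (Fintype.card G : W.K) • (par (W.isInternal (X.prod Y)) * avg W ρ σ) := by
    rw [par_avg_sum, Finset.sum_mul]
    have e1 : ∀ g, extOp W (par (W.isInternal X) * act W ρ g) (act W σ g) *
        (∑ h, extOp W (act W ρ h) (par (W.isInternal Y) * act W σ h)) =
        ∑ h, extOp W (par (W.isInternal X) * act W ρ h) (par (W.isInternal Y) * act W σ h) := by
      intro g
      rw [Finset.mul_sum]
      refine Fintype.sum_equiv (Equiv.mulLeft g) _ _ fun h => ?_
      rw [extOp_mul, Equiv.coe_mulLeft, mul_assoc, ← map_mul (act W ρ), ← mul_assoc (act W σ g),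
        act_par, mul_assoc (par _) (act W σ g), ← map_mul (act W σ)]
    simp only [e1]
    rw [Finset.sum_const, Finset.card_univ, ← Nat.cast_smul_eq_nsmul W.K]
  rw [e] at h3
  have h4 := Submodule.smul_mem _ ((Fintype.card G : W.K)⁻¹) h3
  rw [smul_smul, inv_mul_cancel₀ hc, one_smul] at h4
  exact KOp.cast h4 (by ring)

/-- Part two. -/
theorem sign_quotient_iff [Fintype G] {ρ : G →* End X} {σ : G →* End Y} {π : X.prod Y ⟶ Z}
    (h : IsQuotient W ρ σ π) : SignStd W Z ↔ SignOnPart W ρ σ ∧ SignOnPart W σ ρ := by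
  refine ⟨fun hZ => parts_of_contains h.contains hZ, fun hp => sign_iff_par.2 ?_⟩
  have h3 := par_avg_of_parts hp.1 hp.2
  have hc : (Fintype.card G : W.K) ≠ 0 := by exact_mod_cast Fintype.card_ne_zero
  have h4 : W.push π ∘ₗ (par (W.isInternal (X.prod Y)) * avg W ρ σ) ∘ₗ
      (W.map π).toLinearMap ∈ KOp W Z Z 0 :=
    KOp.cast (KOp.comp (kop_push h) (KOp.comp h3 (kop_map π))) (by ring)
  have e : W.push π ∘ₗ (par (W.isInternal (X.prod Y)) * avg W ρ σ) ∘ₗ
      (W.map π).toLinearMap =
      ((Fintype.card G : W.K) * (Fintype.card G : W.K)) • par (W.isInternal Z) := by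
    apply LinearMap.ext
    intro z
    rw [LinearMap.comp_apply, LinearMap.comp_apply, AlgHom.toLinearMap_apply,
      Module.End.mul_apply, ← h.pp, h.push_map, map_smul, map_smul, map_smul, IsQuotient.par_map,
      h.push_map, LinearMap.smul_apply, smul_smul]
  rw [e] at h4
  have h5 := Submodule.smul_mem _
    (((Fintype.card G : W.K) * (Fintype.card G : W.K))⁻¹) h4
  rwa [smul_smul, inv_mul_cancel₀ (mul_ne_zero hc hc), one_smul] at h5

/-- Part three. -/
theorem signOnPart_iff_sign [Fintype G] {ρ : G →* End X} {σ : G →* End Y}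
    (hσ : ActsIndependently W σ) : SignOnPart W ρ σ ↔ SignStd W X := by
  rw [signOnPart_iff, sign_iff_par]
  constructor
  · intro h
    classical
    obtain ⟨c, hc1, hc⟩ := exists_dual (act_linInd hσ)
    have e : par (W.isInternal X) = ∑ h, c h • (par (W.isInternal X) * tw W ρ σ h) := by
      have e1 : ∑ h, c h • tw W ρ σ h = 1 := by
        have e2 : ∀ h, c h • tw W ρ σ h =
            ∑ g, (c h * LinearMap.trace W.K (W.H Y) (act W σ g * act W σ h)) • act W ρ g := by
          intro h
          rw [tw, Finset.smul_sum]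
          exact Finset.sum_congr rfl fun g _ => smul_smul _ _ _
        simp only [e2]
        rw [Finset.sum_comm]
        have e3 : ∀ g, ∑ h, (c h * LinearMap.trace W.K (W.H Y) (act W σ g * act W σ h)) •
            act W ρ g = (if g = 1 then (1 : W.K) else 0) • act W ρ g := by
          intro g
          rw [← Finset.sum_smul]
          congr 1
          split_ifs with hg
          · subst hg
            simpa only [map_one, one_mul] using hc1
          · exact hc g hg
        simp only [e3]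
        rw [Finset.sum_eq_single 1, if_pos rfl, one_smul, map_one]
        · intro g _ hg
          rw [if_neg hg, zero_smul]
        · intro h
          exact absurd (Finset.mem_univ _) h
      calc par (W.isInternal X) = par (W.isInternal X) * ∑ h, c h • tw W ρ σ h := by
            rw [e1, mul_one]
        _ = _ := by
            rw [Finset.mul_sum]
            exact Finset.sum_congr rfl fun h _ => mul_smul_comm _ _ _
    rw [e]
    exact Submodule.sum_mem _ fun h' _ => Submodule.smul_mem _ _ (h h')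
  · intro h g
    exact KOp.cast (kmul h (tw_mem ρ σ g)) (by ring)

end Pool.Agent.Y112.QB
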