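import Pool.Agent.Y112.QB.Short
import Pool.Agent.Y112.QB.Sign

/-!
# Comparison of the two forms of the definitions
-/

open CategoryTheory AlgebraicGeometry

universe u v

namespace Pool.Agent.Y112.QC

open Pool.Agent.H914 VarClass Obj WeilCohomology Pool.Agent.H447

variable {k : Type u} [Field k] {𝒱 : VarClass k} {ops : CycleOps 𝒱}
  {W : WeilCohomology.{u, v} ops} {X Y Z : 𝒱.Obj} {G : Type} [Group G]

/-- The action as a homomorphism. -/
def GAct.mon (ρ : GAct G X) : G →* End X where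
  toFun := ρ.hom
  map_one' := ρ.hom_one
  map_mul' g h := ρ.hom_mul g h

lemma pb2_apply (ρ : GAct G X) (σ : GAct G Y) (g : G) (x : W.H (X.prod Y)) :
    pb2 W ρ σ g x = W.map (QB.bi (ρ.mon g) (σ.mon g)) x := rfl

variable [Fintype G]

lemma indep_iff (ρ : GAct G X) : ActsIndependently W ρ ↔ QB.ActsIndependently W ρ.mon := by
  rw [QB.ActsIndependently, Fintype.linearIndependent_iff]
  constructor
  · intro h c hc
    apply h c
    intro x
    have := congrArg (fun F => F x) hc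
    rw [LinearMap.sum_apply] at this
    exact this
  · intro h c hc
    apply h c
    apply LinearMap.ext
    intro x
    rw [LinearMap.sum_apply]
    exact hc x

lemma isQuotient_iff {ρ : GAct G X} {σ : GAct G Y} {π : X.prod Y ⟶ Z} :
    IsQuotient W ρ σ π ↔ QB.IsQuotient W ρ.mon σ.mon π :=
  ⟨fun h => ⟨h.dim_eq, h.invariant, h.transfer.1, h.transfer.2⟩,
    fun h => ⟨h.dim_eq, h.invariant, ⟨h.pull_push, h.push_pull⟩⟩⟩

lemma contains_iff {ρ : GAct G X} {σ : GAct G Y} :
    ContainsInvariants W ρ σ Z ↔ QB.ContainsInvariants W ρ.mon σ.mon Z := Iff.rfl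

lemma twist_eq {ρ : GAct G X} {σ : GAct G Y} (h : G) (x : W.H X) :
    twist (pb W ρ) (pb W σ) h x = QB.twist W ρ.mon σ.mon h x := by
  rw [QB.twist, LinearMap.sum_apply]
  rfl

lemma signOnPart_iff {ρ : GAct G X} {σ : GAct G Y} :
    SignOnPart W ρ σ ↔ QB.SignOnPart W ρ.mon σ.mon := by
  have key : ∀ h γ, IsEvenPartOf (W.gr X) (twist (pb W ρ) (pb W σ) h) (W.corr γ) ↔
      ∀ i, ∀ x ∈ W.gr X i, W.corr γ x = if Even i then QB.twist W ρ.mon σ.mon h x else 0 := by
    intro h γ
    constructor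
    · intro h1 i x hx
      rw [← twist_eq]
      exact h1 i x hx
    · intro h1 i x hx
      rw [twist_eq]
      exact h1 i x hx
  constructor
  · intro h g
    obtain ⟨γ, hγ, h1⟩ := h g
    exact ⟨γ, hγ, (key g γ).1 h1⟩
  · intro h g
    obtain ⟨γ, hγ, h1⟩ := h g
    exact ⟨γ, hγ, (key g γ).2 h1⟩

omit [Fintype G] in
lemma lefschetz_eq {f : X ⟶ X} {c : W.K} (h : LefschetzNumberIs W f c) :
    QB.lefschetzNumber W f = c := by
  obtain ⟨s, hs, h1⟩ := h
  have e : s = par (W.isInternal X) := by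
    apply gr_ext (W.isInternal X)
    intro i a ha
    rw [hs i a ha, par, scal_apply _ _ ha]
  rw [QB.lefschetzNumber_eq, ← e, ← h1]
  rfl

lemma indep_of_lefschetz {σ : GAct G Y} {c : W.K} (hc : c ≠ 0)
    (h1 : LefschetzNumberIs W (𝟙 Y) c) (h : ∀ g : G, g ≠ 1 → LefschetzNumberIs W (σ.hom g) 0) :
    ActsIndependently W σ := by
  rw [indep_iff]
  apply QB.independent_of_lefschetz
  · rw [lefschetz_eq h1]
    exact hc
  · intro g hg
    exact lefschetz_eq (h g hg)

/-- **The sign conjecture for quotients of products.** -/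
theorem sign_main (ρ : GAct G X) (σ : GAct G Y) :
    (ContainsInvariants W ρ σ Z → SignStd W Z → SignOnPart W ρ σ ∧ SignOnPart W σ ρ) ∧
    (∀ π : X.prod Y ⟶ Z, IsQuotient W ρ σ π →
      (SignStd W Z ↔ SignOnPart W ρ σ ∧ SignOnPart W σ ρ)) ∧
    (ActsIndependently W σ → (SignOnPart W ρ σ ↔ SignStd W X)) ∧
    (∀ c : W.K, c ≠ 0 → LefschetzNumberIs W (𝟙 Y) c →
      (∀ g : G, g ≠ 1 → LefschetzNumberIs W (σ.hom g) 0) → ActsIndependently W σ) := by
  refine ⟨fun h hZ => ?_, fun π h => ?_, fun h => ?_, fun c hc h1 h => indep_of_lefschetz hc h1 h⟩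
  · rw [signOnPart_iff, signOnPart_iff]
    exact QB.parts_of_contains (contains_iff.1 h) hZ
  · rw [signOnPart_iff, signOnPart_iff]
    exact QB.sign_quotient_iff (isQuotient_iff.1 h)
  · rw [signOnPart_iff]
    exact QB.signOnPart_iff_sign ((indep_iff σ).1 h)

end Pool.Agent.Y112.QC
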