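import Pool.Agent.Y112.QB.Cas

/-!
# Deformations of the trace form of a finite group
-/

open Finset

namespace Pool.Agent.Y112.QB

variable {K : Type*} [Field K] [CharZero K] {V : Type*} [AddCommGroup V] [Module K V]
  [Module.Finite K V] {G : Type*} [Group G] [Fintype G]

/-- A polynomial deformation of the trace form is nondegenerate for almost all values of the
parameter. -/
theorem exists_good (b : G →* Module.End K V) (N : ℕ) (f : ℕ → (Module.End K V →ₗ[K] K))
    (hf : ∀ x, ∑ i ∈ range N, (-1 : K) ^ i * f i x = LinearMap.trace K V x) :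
    ∃ S : Finset K, ∀ t ∉ S, ∀ h : G, ∃ u ∈ Submodule.span K (Set.range b),
      ∀ g : G, ∑ i ∈ range N, t ^ i * f i (b g * u) = LinearMap.trace K V (b g * b h) := by
  classical
  set U : Submodule K (Module.End K V) := Submodule.span K (Set.range b) with hU
  let bs := Module.finBasis K U
  let F : K → (Module.End K V →ₗ[K] K) := fun t => ∑ i ∈ range N, t ^ i • f i
  have hF : ∀ t x, F t x = ∑ i ∈ range N, t ^ i * f i x := by
    intro t x
    simp only [F, LinearMap.sum_apply, LinearMap.smul_apply, smul_eq_mul]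
  have hF1 : F (-1) = LinearMap.trace K V := by
    apply LinearMap.ext
    intro x
    rw [hF, hf]
  let P : Matrix (Fin (Module.finrank K U)) (Fin (Module.finrank K U)) (Polynomial K) :=
    Matrix.of fun a c => ∑ i ∈ range N,
      Polynomial.C (f i ((bs a : Module.End K V) * (bs c : Module.End K V))) * Polynomial.X ^ i
  let M : K → Matrix (Fin (Module.finrank K U)) (Fin (Module.finrank K U)) K := fun t =>
    Matrix.of fun a c => F t ((bs a : Module.End K V) * (bs c : Module.End K V))
  have hM : ∀ t, (M t).det = Polynomial.eval t P.det := by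
    intro t
    have h1 : M t = (Polynomial.evalRingHom t).mapMatrix P := by
      ext a c
      simp only [M, P, Matrix.of_apply, RingHom.mapMatrix_apply, Matrix.map_apply, hF,
        Polynomial.coe_evalRingHom, Polynomial.eval_finsetSum, Polynomial.eval_mul,
        Polynomial.eval_C, Polynomial.eval_pow, Polynomial.eval_X]
      exact Finset.sum_congr rfl fun i _ => mul_comm _ _
    rw [h1, ← RingHom.map_det]
    rfl
  have hext : ∀ (t : K) (v : Fin (Module.finrank K U) → K) (w : Module.End K V →ₗ[K] K),
      (∀ a, (M t).mulVec v a = w (bs a : Module.End K V)) →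
      ∀ x ∈ U, F t (x * ((∑ c, v c • bs c : U) : Module.End K V)) = w x := by
    intro t v w h x hx
    have key : F t ∘ₗ LinearMap.mulRight K ((∑ c, v c • bs c : U) : Module.End K V) ∘ₗ
        U.subtype = w ∘ₗ U.subtype := by
      apply bs.ext
      intro a
      rw [LinearMap.comp_apply, LinearMap.comp_apply, LinearMap.comp_apply, U.subtype_apply, ← h a,
        LinearMap.mulRight_apply, Submodule.coe_sum, Finset.mul_sum, map_sum, Matrix.mulVec,
        dotProduct]
      refine Finset.sum_congr rfl fun c _ => ?_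
      rw [Submodule.coe_smul, mul_smul_comm, map_smul, smul_eq_mul, mul_comm]
      rfl
    exact congrArg (fun L => L (⟨x, hx⟩ : U)) key
  have hD : Polynomial.eval (-1) P.det ≠ 0 := by
    rw [← hM]
    intro h0
    obtain ⟨v, hv, hMv⟩ := Matrix.exists_mulVec_eq_zero_iff.2 h0
    apply hv
    have h1 := hext (-1) v 0 (fun a => by rw [hMv]; rfl)
    rw [hF1] at h1
    have hu : (∑ c, v c • bs c : U) = 0 := by
      apply Subtype.ext
      obtain ⟨x, hx⟩ := exists_toEnd (b := b) (∑ c, v c • bs c : U).2
      change ((∑ c, v c • bs c : U) : Module.End K V) = 0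
      rw [← hx]
      apply trace_nondeg'
      intro g
      rw [hx, LinearMap.trace_mul_comm]
      exact h1 _ (Submodule.subset_span ⟨g, rfl⟩)
    funext c
    exact Fintype.linearIndependent_iff.1 bs.linearIndependent v hu c
  have hP : P.det ≠ 0 := by
    intro h0
    rw [h0, Polynomial.eval_zero] at hD
    exact hD rfl
  refine ⟨P.det.roots.toFinset, fun t ht h => ?_⟩
  have ht' : (M t).det ≠ 0 := by
    rw [hM]
    intro h0
    exact ht (Multiset.mem_toFinset.2 ((Polynomial.mem_roots hP).2 h0))
  let w : Module.End K V →ₗ[K] K := LinearMap.trace K V ∘ₗ LinearMap.mulRight K (b h)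
  let v : Fin (Module.finrank K U) → K := (M t)⁻¹.mulVec fun a => w (bs a : Module.End K V)
  have hv : ∀ a, (M t).mulVec v a = w (bs a : Module.End K V) := by
    intro a
    rw [Matrix.mulVec_mulVec, Matrix.mul_nonsing_inv _ (isUnit_iff_ne_zero.2 ht'),
      Matrix.one_mulVec]
  refine ⟨((∑ c, v c • bs c : U) : Module.End K V), (∑ c, v c • bs c : U).2, fun g => ?_⟩
  rw [← hF, hext t v w hv (b g) (Submodule.subset_span ⟨g, rfl⟩)]
  rfl

/-- Vandermonde. -/
lemma vandermonde_mem {K M : Type*} [Field K] [AddCommGroup M] [Module K M] (T : Submodule K M)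
    {N : ℕ} (y : Fin N → M) (t : Fin N → K) (ht : Function.Injective t)
    (h : ∀ a, ∑ i : Fin N, t a ^ (i : ℕ) • y i ∈ T) (i : Fin N) : y i ∈ T := by
  classical
  have hdet : (Matrix.vandermonde t).det ≠ 0 := Matrix.det_vandermonde_ne_zero_iff.2 ht
  have h1 : (Matrix.vandermonde t)⁻¹ * Matrix.vandermonde t = 1 :=
    Matrix.nonsing_inv_mul _ (isUnit_iff_ne_zero.2 hdet)
  have h2 : y i = ∑ a, (Matrix.vandermonde t)⁻¹ i a • ∑ j : Fin N, t a ^ (j : ℕ) • y j := by
    have h3 : ∀ a, (Matrix.vandermonde t)⁻¹ i a • ∑ j : Fin N, t a ^ (j : ℕ) • y j =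
        ∑ j : Fin N, ((Matrix.vandermonde t)⁻¹ i a * Matrix.vandermonde t a j) • y j := by
      intro a
      rw [Finset.smul_sum]
      exact Finset.sum_congr rfl fun j _ => smul_smul _ _ _
    simp only [h3]
    rw [Finset.sum_comm]
    have h4 : ∀ j, ∑ a, ((Matrix.vandermonde t)⁻¹ i a * Matrix.vandermonde t a j) • y j =
        (if i = j then (1 : K) else 0) • y j := by
      intro j
      rw [← Finset.sum_smul, ← Matrix.mul_apply, h1, Matrix.one_apply]
    simp only [h4, ite_smul, one_smul, zero_smul, Finset.sum_ite_eq, Finset.mem_univ, if_true]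
  rw [h2]
  exact Submodule.sum_mem _ fun a _ => Submodule.smul_mem _ _ (h a)

/-- Vandermonde, for almost all values. -/
lemma vandermonde_mem' {K M : Type*} [Field K] [CharZero K] [AddCommGroup M] [Module K M]
    (T : Submodule K M) {N : ℕ} (y : ℕ → M) (S : Finset K)
    (h : ∀ t ∉ S, ∑ i ∈ range N, t ^ i • y i ∈ T) {i : ℕ} (hi : i < N) : y i ∈ T := by
  have hinf : ((S : Set K)ᶜ).Infinite := S.finite_toSet.infinite_compl
  let e := hinf.natEmbedding
  have h1 := vandermonde_mem T (fun j : Fin N => y j) (fun j => (e j : K))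
    (fun a c hac => Fin.ext (e.injective (Subtype.ext hac))) (fun a => by
      have := h (e a : K) (fun h' => (e a).2 h')
      rwa [Finset.sum_range] at this) ⟨i, hi⟩
  exact h1

end Pool.Agent.Y112.QB
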