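import Pool.Agent.Y112.QB.Sign
import Pool.Agent.Y112.QB.Nd
import Pool.Agent.TH133.PW.Kun

/-!
# The Kunneth type conjecture for the invariants of a product
-/

open CategoryTheory AlgebraicGeometry Finset

universe u v

namespace Pool.Agent.Y112.QB

open Pool.Agent.H914 VarClass Obj WeilCohomology Pool.Agent.H447 Pool.Agent.TH133.PW

variable {k : Type u} [Field k] {𝒱 : VarClass k} {ops : CycleOps 𝒱}
  {W : WeilCohomology.{u, v} ops} {X Y Z : 𝒱.Obj} {G : Type} [Group G]

/-- The operator `t ^ i` on `H^i(X)`. -/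
noncomputable def Tt (W : WeilCohomology.{u, v} ops) (X : 𝒱.Obj) (t : W.K) :
    Module.End W.K (W.H X) := scal (W.isInternal X) (fun i => t ^ i)

lemma Tt_apply (t : W.K) {i : ℕ} {a : W.H X} (ha : a ∈ W.gr X i) : Tt W X t a = t ^ i • a :=
  scal_apply _ _ ha

lemma Tt_eq_sum (t : W.K) :
    Tt W X t = ∑ i ∈ range (2 * X.dim + 1), t ^ i • proj (W.isInternal X) i :=
  scal_eq_sum (W.isInternal X) (N := 2 * X.dim + 1) (fun i hi => W.gr_eq_bot X i (by omega)) _

lemma Tt_prod (t : W.K) : Tt W (X.prod Y) t = extOp W (Tt W X t) (Tt W Y t) := by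
  apply ext_kunneth_lin
  intro a b
  refine gr_induction (W.isInternal X) (p := fun a => Tt W (X.prod Y) t
    (W.map (fst X Y) a * W.map (snd X Y) b) = extOp W (Tt W X t) (Tt W Y t)
    (W.map (fst X Y) a * W.map (snd X Y) b)) ?_ ?_ a
  · intro i a ha
    refine gr_induction (W.isInternal Y) (p := fun b => Tt W (X.prod Y) t
      (W.map (fst X Y) a * W.map (snd X Y) b) = extOp W (Tt W X t) (Tt W Y t)
      (W.map (fst X Y) a * W.map (snd X Y) b)) ?_ ?_ b
    · intro j b hb
      have h1 := W.mul_mem (W.map_mem (fst X Y) ha) (W.map_mem (snd X Y) hb)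
      rw [extOp_tmul, Tt_apply t h1, Tt_apply t ha, Tt_apply t hb, map_smul, map_smul,
        smul_mul_smul_comm, pow_add]
    · intro b b' h h'
      rw [map_add, mul_add, map_add, map_add, h, h']
  · intro a a' h h'
    rw [map_add, add_mul, map_add, map_add, h, h']

/-- Algebraic operators and the operators `Tt`. -/
lemma kop_Tt {t : W.K} (ht : t ≠ 0) {d : ℤ} {φ : W.H X →ₗ[W.K] W.H Y} (hφ : φ ∈ KOp W X Y d)
    (x : W.H X) : Tt W Y t (φ x) = t ^ (2 * d) • φ (Tt W X t x) := by
  refine gr_induction (W.isInternal X) (p := fun x =>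
    Tt W Y t (φ x) = t ^ (2 * d) • φ (Tt W X t x)) ?_ ?_ x
  · intro i a ha
    have h1 := KOp.isHom hφ i a (by rw [grZ_natCast]; exact ha)
    rw [Tt_apply t ha, map_smul, smul_smul, ← zpow_natCast, ← zpow_add₀ ht]
    by_cases hi : 0 ≤ (i : ℤ) + 2 * d
    · obtain ⟨j, hj⟩ := Int.eq_ofNat_of_zero_le hi
      rw [hj, grZ_natCast] at h1
      rw [Tt_apply t h1, add_comm, hj, zpow_natCast]
    · rw [grZ_of_neg (by omega)] at h1
      rw [(Submodule.mem_bot _).1 h1, map_zero, smul_zero]
  · intro a b ha hb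
    rw [map_add, map_add, ha, hb, map_add, map_add, smul_add]

lemma Tt_comm {t : W.K} (ht : t ≠ 0) {φ : Module.End W.K (W.H X)} (hφ : φ ∈ KOp W X X 0) :
    Tt W X t * φ = φ * Tt W X t := by
  apply LinearMap.ext
  intro x
  rw [Module.End.mul_apply, Module.End.mul_apply, kop_Tt ht hφ, mul_zero, zpow_zero, one_smul]

lemma avg_mem [Fintype G] (ρ : G →* End X) (σ : G →* End Y) :
    avg W ρ σ ∈ KOp W (X.prod Y) (X.prod Y) 0 :=
  Submodule.sum_mem _ fun g _ => KOp.cast (KOp.ext (act_mem ρ g) (act_mem σ g)) (by ring)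

lemma Tt_mem (h : ∀ i, proj (W.isInternal Z) i ∈ KOp W Z Z 0) (t : W.K) :
    Tt W Z t ∈ KOp W Z Z 0 := by
  rw [Tt_eq_sum]
  exact Submodule.sum_mem _ fun i _ => Submodule.smul_mem _ _ (h i)

/-- From the projectors of `Z` to the invariants of the product. -/
lemma Tt_avg_of_contains [Fintype G] {ρ : G →* End X} {σ : G →* End Y}
    (h : ContainsInvariants W ρ σ Z) (hZ : ∀ i, proj (W.isInternal Z) i ∈ KOp W Z Z 0)
    {t : W.K} (ht : t ≠ 0) :
    Tt W (X.prod Y) t * avg W ρ σ ∈ KOp W (X.prod Y) (X.prod Y) 0 := by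
  obtain ⟨d, a, ha, b, hb, h1⟩ := containsInvariants_iff.1 h
  have e : b ∘ₗ Tt W Z t ∘ₗ a = t ^ (2 * d) • (Tt W (X.prod Y) t * avg W ρ σ) := by
    rw [Tt_comm ht (avg_mem ρ σ)]
    apply LinearMap.ext
    intro x
    rw [LinearMap.comp_apply, LinearMap.comp_apply, kop_Tt ht ha, map_smul, LinearMap.smul_apply,
      Module.End.mul_apply, ← h1, LinearMap.comp_apply]
  have h2 : b ∘ₗ Tt W Z t ∘ₗ a ∈ KOp W (X.prod Y) (X.prod Y) 0 :=
    KOp.cast (KOp.comp hb (KOp.comp (Tt_mem hZ t) ha)) (by ring)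
  rw [e] at h2
  have h3 := Submodule.smul_mem _ ((t ^ (2 * d))⁻¹) h2
  rwa [smul_smul, inv_mul_cancel₀ (zpow_ne_zero _ ht), one_smul] at h3

/-- The forms `x ↦ tr(par proj_i x)`. -/
noncomputable def strOn (W : WeilCohomology.{u, v} ops) (Y : 𝒱.Obj) (i : ℕ) :
    Module.End W.K (W.H Y) →ₗ[W.K] W.K :=
  st W Y ∘ₗ LinearMap.mulLeft W.K (proj (W.isInternal Y) i)

lemma st_Tt (t : W.K) (x : Module.End W.K (W.H Y)) :
    ∑ i ∈ range (2 * Y.dim + 1), t ^ i * strOn W Y i x = st W Y (Tt W Y t * x) := by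
  rw [Tt_eq_sum, Finset.sum_mul, map_sum]
  refine Finset.sum_congr rfl fun i _ => ?_
  rw [smul_mul_assoc, map_smul, smul_eq_mul]
  rfl

lemma st_par (x : Module.End W.K (W.H Y)) :
    ∑ i ∈ range (2 * Y.dim + 1), (-1 : W.K) ^ i * strOn W Y i x =
      LinearMap.trace W.K (W.H Y) x := by
  have e : Tt W Y (-1) = par (W.isInternal Y) := rfl
  rw [st_Tt, e, st_apply, ← mul_assoc, par_mul_par, one_mul]

/-- **The slices**, Kunneth projectors. -/
theorem slice_kun [Fintype G] {ρ : G →* End X} {σ : G →* End Y}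
    (hT : ∀ t : W.K, t ≠ 0 → Tt W (X.prod Y) t * avg W ρ σ ∈
      KOp W (X.prod Y) (X.prod Y) 0) (i : ℕ) (h : G) :
    proj (W.isInternal X) i * tw W ρ σ h ∈ KOp W X X 0 := by
  classical
  obtain ⟨S, hS⟩ := exists_good (act W σ) (2 * Y.dim + 1) (strOn W Y) st_par
  have key : ∀ t ∉ insert 0 S, Tt W X t * tw W ρ σ h ∈ KOp W X X 0 := by
    intro t ht
    rw [Finset.mem_insert, not_or] at ht
    obtain ⟨u, hu, h1⟩ := hS t ht.2 h
    have h2 : extOp W (1 : Module.End W.K (W.H X)) u ∈ KOp W (X.prod Y) (X.prod Y) 0 :=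
      KOp.cast (KOp.ext (KOp.id X) (span_act_mem hu)) (by ring)
    have h3 := kmul (hT t ht.1) h2
    rw [add_zero] at h3
    have h4 := kop_ptr h3
    have e1 : ptr W X Y (Tt W (X.prod Y) t * avg W ρ σ * extOp W (1 : Module.End W.K (W.H X)) u) =
        Tt W X t * tw W ρ σ h := by
      rw [Tt_prod, avg, Finset.mul_sum, Finset.sum_mul, map_sum, tw, Finset.mul_sum]
      refine Finset.sum_congr rfl fun g _ => ?_
      rw [extOp_mul, extOp_mul, mul_one, ptr_extOp, mul_assoc, ← st_Tt, h1, mul_smul_comm]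
    rwa [e1] at h4
  by_cases hi : i < 2 * X.dim + 1
  · refine vandermonde_mem' (KOp W X X 0) (N := 2 * X.dim + 1)
      (fun i => proj (W.isInternal X) i * tw W ρ σ h) (insert 0 S) ?_ hi
    intro t ht
    have h5 := key t ht
    rw [Tt_eq_sum, Finset.sum_mul] at h5
    simpa only [smul_mul_assoc] using h5
  · have h0 : proj (W.isInternal X) i = 0 := by
      apply LinearMap.ext
      intro a
      have := proj_mem (W.isInternal X) i a
      rw [W.gr_eq_bot X i (by omega)] at this
      exact (Submodule.mem_bot _).1 this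
    rw [h0, zero_mul]
    exact Submodule.zero_mem _

lemma act_proj (ρ : G →* End X) (g : G) (i : ℕ) :
    act W ρ g * proj (W.isInternal X) i = proj (W.isInternal X) i * act W ρ g := by
  apply gr_ext (W.isInternal X)
  intro j a ha
  have h1 : act W ρ g a ∈ W.gr X j := W.map_mem _ ha
  rw [Module.End.mul_apply, Module.End.mul_apply]
  by_cases hj : j = i
  · subst hj
    rw [proj_same _ ha, proj_same _ h1]
  · rw [proj_ne _ ha hj, proj_ne _ h1 hj, map_zero]

/-- **Gluing**, Kunneth projectors. -/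
theorem glue_kun [Fintype G] {ρ : G →* End X} {σ : G →* End Y}
    (h1 : ∀ i h, proj (W.isInternal X) i * tw W ρ σ h ∈ KOp W X X 0)
    (h2 : ∀ i h, proj (W.isInternal Y) i * tw W σ ρ h ∈ KOp W Y Y 0) (t : W.K) :
    Tt W (X.prod Y) t * avg W ρ σ ∈ KOp W (X.prod Y) (X.prod Y) 0 := by
  have hc : (Fintype.card G : W.K) ≠ 0 := by exact_mod_cast Fintype.card_ne_zero
  have hij : ∀ i j, extOp W (proj (W.isInternal X) i) (proj (W.isInternal Y) j) * avg W ρ σ ∈
      KOp W (X.prod Y) (X.prod Y) 0 := by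
    intro i j
    have h3 := kmul (glue (h1 i)) (glue' (h2 j))
    have e : (∑ g, extOp W (proj (W.isInternal X) i * act W ρ g) (act W σ g)) *
        (∑ g, extOp W (act W ρ g) (proj (W.isInternal Y) j * act W σ g)) =
        (Fintype.card G : W.K) •
          (extOp W (proj (W.isInternal X) i) (proj (W.isInternal Y) j) * avg W ρ σ) := by
      have e0 : extOp W (proj (W.isInternal X) i) (proj (W.isInternal Y) j) * avg W ρ σ =
          ∑ g, extOp W (proj (W.isInternal X) i * act W ρ g)
            (proj (W.isInternal Y) j * act W σ g) := by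
        rw [avg, Finset.mul_sum]
        exact Finset.sum_congr rfl fun g _ => extOp_mul _ _ _ _
      rw [e0, Finset.sum_mul]
      have e1 : ∀ g, extOp W (proj (W.isInternal X) i * act W ρ g) (act W σ g) *
          (∑ h, extOp W (act W ρ h) (proj (W.isInternal Y) j * act W σ h)) =
          ∑ h, extOp W (proj (W.isInternal X) i * act W ρ h)
            (proj (W.isInternal Y) j * act W σ h) := by
        intro g
        rw [Finset.mul_sum]
        refine Fintype.sum_equiv (Equiv.mulLeft g) _ _ fun h => ?_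
        rw [extOp_mul, Equiv.coe_mulLeft, mul_assoc, ← map_mul (act W ρ),
          ← mul_assoc (act W σ g), act_proj, mul_assoc (proj _ _) (act W σ g),
          ← map_mul (act W σ)]
      simp only [e1]
      rw [Finset.sum_const, Finset.card_univ, ← Nat.cast_smul_eq_nsmul W.K]
    rw [e] at h3
    have h4 := Submodule.smul_mem _ ((Fintype.card G : W.K)⁻¹) h3
    rw [smul_smul, inv_mul_cancel₀ hc, one_smul] at h4
    exact KOp.cast h4 (by ring)
  rw [Tt_prod, Tt_eq_sum (X := X), Tt_eq_sum (X := Y), extOp_sum_left, Finset.sum_mul]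
  refine Submodule.sum_mem _ fun i _ => ?_
  rw [extOp_sum_right, Finset.sum_mul]
  refine Submodule.sum_mem _ fun j _ => ?_
  rw [extOp_smul_left, extOp_smul_right, smul_mul_assoc, smul_mul_assoc]
  exact Submodule.smul_mem _ _ (Submodule.smul_mem _ _ (hij i j))

lemma Tt_map (π : X ⟶ Z) (t : W.K) (z : W.H Z) :
    Tt W X t (W.map π z) = W.map π (Tt W Z t z) := by
  refine gr_induction (W.isInternal Z) (p := fun z =>
    Tt W X t (W.map π z) = W.map π (Tt W Z t z)) ?_ ?_ z
  · intro i z hz
    rw [Tt_apply t (W.map_mem π hz), Tt_apply t hz, map_smul]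
  · intro a b ha hb
    rw [map_add, map_add, ha, hb, map_add, map_add]

/-- The Kunneth projectors of a quotient. -/
theorem kun_quotient_iff [Fintype G] {ρ : G →* End X} {σ : G →* End Y} {π : X.prod Y ⟶ Z}
    (h : IsQuotient W ρ σ π) : (∀ i, proj (W.isInternal Z) i ∈ KOp W Z Z 0) ↔
      (∀ i h, proj (W.isInternal X) i * tw W ρ σ h ∈ KOp W X X 0) ∧
      (∀ i h, proj (W.isInternal Y) i * tw W σ ρ h ∈ KOp W Y Y 0) := by
  constructor
  · intro hZ
    exact ⟨slice_kun fun t ht => Tt_avg_of_contains h.contains hZ ht,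
      slice_kun fun t ht => Tt_avg_of_contains h.contains.symm hZ ht⟩
  · rintro ⟨h1, h2⟩
    have hc : (Fintype.card G : W.K) ≠ 0 := by exact_mod_cast Fintype.card_ne_zero
    have key : ∀ t : W.K, Tt W Z t ∈ KOp W Z Z 0 := by
      intro t
      have h3 := glue_kun h1 h2 t
      have h4 : W.push π ∘ₗ (Tt W (X.prod Y) t * avg W ρ σ) ∘ₗ
          (W.map π).toLinearMap ∈ KOp W Z Z 0 :=
        KOp.cast (KOp.comp (kop_push h) (KOp.comp h3 (kop_map π))) (by ring)
      have e : W.push π ∘ₗ (Tt W (X.prod Y) t * avg W ρ σ) ∘ₗ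
          (W.map π).toLinearMap =
          ((Fintype.card G : W.K) * (Fintype.card G : W.K)) • Tt W Z t := by
        apply LinearMap.ext
        intro z
        rw [LinearMap.comp_apply, LinearMap.comp_apply, AlgHom.toLinearMap_apply,
          Module.End.mul_apply, ← h.pp, h.push_map, map_smul, map_smul, map_smul, Tt_map,
          h.push_map, LinearMap.smul_apply, smul_smul]
      rw [e] at h4
      have h5 := Submodule.smul_mem _
        (((Fintype.card G : W.K) * (Fintype.card G : W.K))⁻¹) h4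
      rwa [smul_smul, inv_mul_cancel₀ (mul_ne_zero hc hc), one_smul] at h5
    intro i
    by_cases hi : i < 2 * Z.dim + 1
    · refine vandermonde_mem' (KOp W Z Z 0) (N := 2 * Z.dim + 1)
        (fun i => proj (W.isInternal Z) i) ∅ ?_ hi
      intro t _
      have h5 := key t
      rwa [Tt_eq_sum] at h5
    · have h0 : proj (W.isInternal Z) i = 0 := by
        apply LinearMap.ext
        intro a
        have := proj_mem (W.isInternal Z) i a
        rw [W.gr_eq_bot Z i (by omega)] at this
        exact (Submodule.mem_bot _).1 this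
      rw [h0]
      exact Submodule.zero_mem _

/-- When `G` acts independently the twists span the identity. -/
lemma exists_tw_one [Fintype G] (ρ : G →* End X) {σ : G →* End Y}
    (hσ : ActsIndependently W σ) : ∃ c : G → W.K, ∑ h, c h • tw W ρ σ h = 1 := by
  classical
  obtain ⟨c, hc1, hc⟩ := exists_dual (act_linInd hσ)
  refine ⟨c, ?_⟩
  have e2 : ∀ h, c h • tw W ρ σ h =
      ∑ g, (c h * LinearMap.trace W.K (W.H Y) (act W σ g * act W σ h)) • act W ρ g := by
    intro h
    rw [tw, Finset.smul_sum]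
    exact Finset.sum_congr rfl fun g _ => smul_smul _ _ _
  simp only [e2]
  rw [Finset.sum_comm]
  have e3 : ∀ g, ∑ h, (c h * LinearMap.trace W.K (W.H Y) (act W σ g * act W σ h)) •
      act W ρ g = (if g = 1 then (1 : W.K) else 0) • act W ρ g := by
    intro g
    rw [← Finset.sum_smul]
    congr 1
    split_ifs with hg
    · subst hg
      simpa only [map_one, one_mul] using hc1
    · exact hc g hg
  simp only [e3]
  rw [Finset.sum_eq_single 1, if_pos rfl, one_smul, map_one]
  · intro g _ hg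
    rw [if_neg hg, zero_smul]
  · intro h
    exact absurd (Finset.mem_univ _) h

/-- The part is everything when `G` acts independently. -/
theorem part_iff_all [Fintype G] {ρ : G →* End X} {σ : G →* End Y}
    (hσ : ActsIndependently W σ) {φ : Module.End W.K (W.H X)} :
    (∀ h, φ * tw W ρ σ h ∈ KOp W X X 0) ↔ φ ∈ KOp W X X 0 := by
  constructor
  · intro h
    obtain ⟨c, hc⟩ := exists_tw_one ρ hσ
    have e : φ = ∑ h, c h • (φ * tw W ρ σ h) := by
      calc φ = φ * ∑ h, c h • tw W ρ σ h := by rw [hc, mul_one]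
        _ = _ := by
            rw [Finset.mul_sum]
            exact Finset.sum_congr rfl fun h _ => mul_smul_comm _ _ _
    rw [e]
    exact Submodule.sum_mem _ fun h' _ => Submodule.smul_mem _ _ (h h')
  · intro h g
    exact KOp.cast (kmul h (tw_mem ρ σ g)) (by ring)

/-- The Kunneth type conjecture and the Kunneth type conjecture with coefficients. -/
lemma proj_of_kunneth (h : KunnethStd W X) (i : ℕ) :
    proj (W.isInternal X) i ∈ KOp W X X 0 := by
  obtain ⟨P, hP, hP'⟩ := h i
  have e : W.corr (W.cl _ P) = proj (W.isInternal X) i :=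
    gr_ext (W.isInternal X) fun j a ha => by rw [hP' j a ha, isProjector_proj W X i j a ha]
  rw [← e]
  exact KOp.gen (p := X.dim) (by ring) hP

lemma kunneth_of_proj (hr : SameTracesAll {W} X)
    (h : ∀ i, proj (W.isInternal X) i ∈ KOp W X X 0) : KunnethStd W X := by
  intro i
  obtain ⟨P, hP, hP'⟩ := oneProjector_of_span hr (Set.mem_singleton W) (i := i)
    ⟨proj (W.isInternal X) i, by rw [span_cycleOperators0]; exact h i, isProjector_proj W X i⟩
  exact ⟨P, hP, hP' W (Set.mem_singleton W)⟩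

end Pool.Agent.Y112.QB
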