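import Pool.Agent.Y112.QB.ShortK
import Pool.Agent.Y112.QB.Bridge
import Pool.Agent.Y112.QB.Kun

/-!
# The Kunneth type conjecture for quotients of products
-/

open CategoryTheory AlgebraicGeometry

universe u v

namespace Pool.Agent.Y112.QC

open Pool.Agent.H914 VarClass Obj WeilCohomology Pool.Agent.H447 Pool.Agent.TH133.PW

variable {k : Type u} [Field k] {𝒱 : VarClass k} {ops : CycleOps 𝒱}
  {W : WeilCohomology.{u, v} ops} {X Y Z : 𝒱.Obj} {G : Type} [Group G] [Fintype G]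

lemma kunnethOnPart_iff {ρ : GAct G X} {σ : GAct G Y} :
    KunnethOnPart W ρ σ ↔
      ∀ i h, proj (W.isInternal X) i * QB.tw W ρ.mon σ.mon h ∈ KOp W X X 0 := by
  have key : ∀ i h, (∃ γ ∈ spanCycles W (X.prod X) X.dim,
      IsDegreePartOf (W.gr X) i (twist (pb W ρ) (pb W σ) h) (W.corr γ)) ↔
      proj (W.isInternal X) i * QB.tw W ρ.mon σ.mon h⁻¹ ∈ KOp W X X 0 := by
    intro i h
    have hdeg : ∀ i, ∀ x ∈ W.gr X i, QB.tw W ρ.mon σ.mon h⁻¹ x ∈ W.gr X i := by
      intro i x hx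
      have := KOp.isHom (QB.tw_mem (W := W) ρ.mon σ.mon h⁻¹) i x (by rw [grZ_natCast]; exact hx)
      rwa [mul_zero, add_zero, grZ_natCast] at this
    have hval : ∀ j, ∀ x ∈ W.gr X j,
        (proj (W.isInternal X) i * QB.tw W ρ.mon σ.mon h⁻¹) x =
        if j = i then twist (pb W ρ) (pb W σ) h x else 0 := by
      intro j x hx
      rw [Module.End.mul_apply, twist_eq, QB.twist_eq]
      split_ifs with hj
      · subst hj
        exact proj_same _ (hdeg _ x hx)
      · exact proj_ne _ (hdeg _ x hx) hj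
    rw [mem_KOp_iff, add_zero]
    constructor
    · rintro ⟨γ, hγ, h1⟩
      refine ⟨γ, hγ, ?_⟩
      apply gr_ext (W.isInternal X)
      intro j x hx
      rw [h1 j x hx, hval j x hx]
    · rintro ⟨γ, hγ, h1⟩
      refine ⟨γ, hγ, fun j x hx => ?_⟩
      rw [h1, hval j x hx]
  constructor
  · intro h i g
    have h1 := (key i g⁻¹).1 (h i g⁻¹)
    rwa [inv_inv] at h1
  · intro h i g
    exact (key i g).2 (h i g⁻¹)

/-- **The Kunneth type conjecture for quotients of products.** -/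
theorem kunneth_main (ρ : GAct G X) (σ : GAct G Y) :
    (ContainsInvariants W ρ σ Z → KunnethStd W Z →
      KunnethOnPart W ρ σ ∧ KunnethOnPart W σ ρ) ∧
    (∀ π : X.prod Y ⟶ Z, IsQuotient W ρ σ π → SameTracesAll {W} Z →
      (KunnethStd W Z ↔ KunnethOnPart W ρ σ ∧ KunnethOnPart W σ ρ)) ∧
    (ActsIndependently W σ → SameTracesAll {W} X →
      (KunnethOnPart W ρ σ ↔ KunnethStd W X)) ∧
    (∀ c : W.K, c ≠ 0 → LefschetzNumberIs W (𝟙 Y) c →
      (∀ g : G, g ≠ 1 → LefschetzNumberIs W (σ.hom g) 0) → ActsIndependently W σ) := by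
  refine ⟨fun h hZ => ?_, fun π h hr => ?_, fun h hr => ?_,
    fun c hc h1 h => indep_of_lefschetz hc h1 h⟩
  · rw [kunnethOnPart_iff, kunnethOnPart_iff]
    exact ⟨QB.slice_kun fun t ht => QB.Tt_avg_of_contains (contains_iff.1 h)
        (QB.proj_of_kunneth hZ) ht,
      QB.slice_kun fun t ht => QB.Tt_avg_of_contains (contains_iff.1 h).symm
        (QB.proj_of_kunneth hZ) ht⟩
  · rw [kunnethOnPart_iff, kunnethOnPart_iff, ← QB.kun_quotient_iff (isQuotient_iff.1 h)]
    exact ⟨QB.proj_of_kunneth, QB.kunneth_of_proj hr⟩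
  · rw [kunnethOnPart_iff]
    have h1 := (indep_iff σ).1 h
    constructor
    · intro h2
      exact QB.kunneth_of_proj hr fun i => (QB.part_iff_all h1).1 (h2 i)
    · intro h2 i
      exact (QB.part_iff_all h1).2 (QB.proj_of_kunneth h2 i)

end Pool.Agent.Y112.QC
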