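import Pool.Agent.H914R2.KDefs
import Pool.Agent.H914R2.Graded
import Pool.Agent.W550.B.AddDefs

/-!
# Finite groups acting on varieties and quotients of products: definitions
-/

open CategoryTheory AlgebraicGeometry

universe u v

namespace Pool.Agent.Y112.QB

open Pool.Agent.H914 VarClass Obj WeilCohomology

variable {k : Type u} [Field k] {𝒱 : VarClass k} {ops : CycleOps 𝒱}

/-- The morphism `f × g : X × Y → X × Y`. -/
noncomputable def bi {X Y : 𝒱.Obj} (f : X ⟶ X) (g : Y ⟶ Y) : X.prod Y ⟶ X.prod Y :=
  Obj.lift (fst X Y ≫ f) (snd X Y ≫ g)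

/-- Let the finite group `G` act on `X` (by `ρ`) and on `Y` (by `σ`), hence diagonally on `X × Y`.
The morphism `π : X × Y → Z` of varieties of the same dimension has the properties of the quotient
map of `X × Y` by `G`: it is invariant under `G`, `π^* π_* = ∑ g^*` on the cohomology of `X × Y`,
and `π_* π^*` is the multiplication by the order of `G`. -/
structure IsQuotient (W : WeilCohomology.{u, v} ops) {X Y Z : 𝒱.Obj} {G : Type} [Group G]
    [Fintype G] (ρ : G →* End X) (σ : G →* End Y) (π : X.prod Y ⟶ Z) : Prop where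
  dim_eq : Z.dim = X.dim + Y.dim
  invariant : ∀ g, bi (ρ g) (σ g) ≫ π = π
  pull_push : ∀ x, W.map π (W.push π x) = ∑ g, W.map (bi (ρ g) (σ g)) x
  push_pull : ∀ z, W.push π (W.map π z) = (Fintype.card G : W.K) • z

/-- The operators `g^*` on `H(X)`, `g ∈ G`, are linearly independent over the coefficient field;
equivalently every irreducible representation of `G` occurs in `H(X)`. -/
def ActsIndependently (W : WeilCohomology.{u, v} ops) {X : 𝒱.Obj} {G : Type} [Group G]
    (ρ : G →* End X) : Prop :=
  LinearIndependent W.K (fun g => (W.map (ρ g)).toLinearMap)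

/-- The operator `∑ tr((g h)^* | H(Y)) g^*` on `H(X)`, the sum over `g ∈ G`. For `h ∈ G` these
operators span the part of the group algebra belonging to the irreducible representations whose
duals occur in `H(Y)`. -/
noncomputable def twist (W : WeilCohomology.{u, v} ops) {X Y : 𝒱.Obj} {G : Type} [Group G]
    [Fintype G] (ρ : G →* End X) (σ : G →* End Y) (h : G) : Module.End W.K (W.H X) :=
  ∑ g, LinearMap.trace W.K (W.H Y) (W.map (σ (g * h))).toLinearMap • (W.map (ρ g)).toLinearMap

/-- The sign conjecture, with coefficients in `K`, for the part of `H(X)` belonging to the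
irreducible representations of `G` whose duals occur in `H(Y)`: for each `h ∈ G` some `K`-linear
combination of algebraic correspondences acts as `twist h` on the even cohomology of `X` and as zero
on the odd cohomology. -/
def SignOnPart (W : WeilCohomology.{u, v} ops) {X Y : 𝒱.Obj} {G : Type} [Group G]
    [Fintype G] (ρ : G →* End X) (σ : G →* End Y) : Prop :=
  ∀ h : G, ∃ γ ∈ spanCycles W (X.prod X) X.dim, ∀ i, ∀ x ∈ W.gr X i,
    W.corr γ x = if Even i then twist W ρ σ h x else 0

/-- The `G`-invariants of the motive of `X × Y` are, with coefficients, a direct summand of a twist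
of the motive of `Z`: there are `K`-linear combinations of algebraic correspondences `a` from
`X × Y` to `Z` and `b` from `Z` to `X × Y`, of opposite degrees, with `b ∘ a = ∑ g^*`. -/
def ContainsInvariants (W : WeilCohomology.{u, v} ops) {X Y : 𝒱.Obj} {G : Type} [Group G]
    [Fintype G] (ρ : G →* End X) (σ : G →* End Y) (Z : 𝒱.Obj) : Prop :=
  ∃ d : ℤ, ∃ a ∈ spanCycles W ((X.prod Y).prod Z) ((X.prod Y).dim + d),
    ∃ b ∈ spanCycles W (Z.prod (X.prod Y)) (Z.dim - d),
      ∀ x, W.corr b (W.corr a x) = ∑ g, W.map (bi (ρ g) (σ g)) x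

/-- `D` is a divisor with hard Lefschetz whose class is invariant under `G`. -/
structure IsInvariantLefschetz (W : WeilCohomology.{u, v} ops) {X : 𝒱.Obj} {G : Type} [Group G]
    (ρ : G →* End X) (D : X.Cycles) : Prop where
  isLefschetz : Pool.Agent.W550.B.IsLefschetzDivisor W X D
  invariant : ∀ g, W.map (ρ g) (W.cl X D) = W.cl X D

/-- The Lefschetz number `∑ (-1)^i tr(f^* | H^i(X))` of an endomorphism. -/
noncomputable def lefschetzNumber (W : WeilCohomology.{u, v} ops) {X : 𝒱.Obj} (f : X ⟶ X) : W.K :=
  ∑ i ∈ Finset.range (2 * X.dim + 1), (-1 : W.K) ^ i *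
    LinearMap.trace W.K (W.H X) (proj (W.isInternal X) i * (W.map f).toLinearMap)

end Pool.Agent.Y112.QB
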