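import Mathlib

/-!
# The trace form of a finite group acting by linearly independent operators
-/

open Finset

namespace Pool.Agent.Y112.QB

variable {K : Type*} [Field K] [CharZero K] {V : Type*} [AddCommGroup V] [Module K V]
  [Module.Finite K V] {G : Type*} [Group G] [Fintype G]

lemma idem_trace {e : Module.End K V} (he : e * e = e) (h0 : LinearMap.trace K V e = 0) :
    e = 0 := by
  have h1 : LinearMap.IsProj (LinearMap.range e) e := by
    refine ⟨fun x => ⟨x, rfl⟩, ?_⟩
    rintro _ ⟨x, rfl⟩
    rw [← Module.End.mul_apply, he]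
  have h2 := h1.trace
  rw [h0] at h2
  have h3 : Module.finrank K (LinearMap.range e) = 0 := by exact_mod_cast h2.symm
  rw [← LinearMap.range_eq_bot]
  exact Submodule.finrank_eq_zero.1 h3

/-- The algebra homomorphism from the group algebra. -/
noncomputable def toEnd (b : G →* Module.End K V) : MonoidAlgebra K G →ₐ[K] Module.End K V :=
  MonoidAlgebra.lift K (Module.End K V) G b

lemma toEnd_apply (b : G →* Module.End K V) (x : MonoidAlgebra K G) :
    toEnd b x = ∑ g, x.coeff g • b g := by
  rw [toEnd, MonoidAlgebra.lift_apply, Finsupp.sum_fintype]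
  intro g
  rw [zero_smul]

lemma toEnd_inj {b : G →* Module.End K V} (hb : LinearIndependent K b) {x : MonoidAlgebra K G}
    (hx : toEnd b x = 0) : x = 0 := by
  rw [toEnd_apply] at hx
  have := Fintype.linearIndependent_iff.1 hb (fun g => x.coeff g) hx
  exact MonoidAlgebra.coeff_injective (Finsupp.ext this)

/-- The trace form is nondegenerate. -/
lemma trace_nondeg {b : G →* Module.End K V} (hb : LinearIndependent K b)
    (x : MonoidAlgebra K G) (hx : ∀ g, LinearMap.trace K V (toEnd b x * b g) = 0) : x = 0 := by
  have hx' : ∀ y : MonoidAlgebra K G, LinearMap.trace K V (toEnd b x * toEnd b y) = 0 := by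
    intro y
    rw [toEnd_apply b y, Finset.mul_sum, map_sum]
    refine Finset.sum_eq_zero fun g _ => ?_
    rw [mul_smul_comm (y.coeff g) (toEnd b x) (b g), map_smul, hx, smul_zero]
  haveI : NeZero (Nat.card G : K) := ⟨by
    rw [Nat.card_eq_fintype_card]
    exact_mod_cast Fintype.card_ne_zero⟩
  set J : Submodule (MonoidAlgebra K G) (MonoidAlgebra K G) :=
    Submodule.span (MonoidAlgebra K G) {x} with hJ
  obtain ⟨J', hJ'⟩ := exists_isCompl J
  have hxJ : x ∈ J := Submodule.subset_span rfl
  obtain ⟨e, he, e', he', h1⟩ := Submodule.mem_sup.1 (hJ'.sup_eq_top ▸ Submodule.mem_top :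
    (1 : MonoidAlgebra K G) ∈ J ⊔ J')
  have hdis : ∀ y, y ∈ J → y ∈ J' → y = 0 := fun y h2 h3 => by
    have : y ∈ J ⊓ J' := ⟨h2, h3⟩
    rw [hJ'.inf_eq_bot] at this
    exact (Submodule.mem_bot _).1 this
  have hmul : ∀ y ∈ J, y * e = y := by
    intro y hy
    have h2 : y * e + y * e' = y := by rw [← mul_add, h1, mul_one]
    have h3 : y * e' = 0 := by
      apply hdis
      · have h4 : y * e' = y - y * e := by rw [← h2]; abel_nf; rw [h2]; abel
        rw [h4]
        exact Submodule.sub_mem _ hy (Submodule.smul_mem _ y he)
      · exact Submodule.smul_mem _ y he'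
    rw [h3, add_zero] at h2
    exact h2
  obtain ⟨a, ha⟩ := Submodule.mem_span_singleton.1 he
  have h5 : toEnd b e = 0 := by
    apply idem_trace
    · rw [← map_mul, hmul e he]
    · rw [← ha, smul_eq_mul, map_mul, LinearMap.trace_mul_comm]
      exact hx' a
  have h6 : e = 0 := toEnd_inj hb h5
  rw [← hmul x hxJ, h6, mul_zero]

/-- The dual basis of the group elements for the trace form. -/
theorem exists_dual {b : G →* Module.End K V} (hb : LinearIndependent K b) :
    ∃ c : G → K, (∑ h, c h * LinearMap.trace K V (b h) = 1) ∧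
      ∀ g, g ≠ 1 → ∑ h, c h * LinearMap.trace K V (b g * b h) = 0 := by
  classical
  let M : (G → K) →ₗ[K] (G → K) :=
    { toFun := fun c g => ∑ h, c h * LinearMap.trace K V (b g * b h)
      map_add' := by
        intro c c'
        funext g
        simp only [Pi.add_apply, add_mul, Finset.sum_add_distrib]
      map_smul' := by
        intro r c
        funext g
        simp only [Pi.smul_apply, smul_eq_mul, RingHom.id_apply, Finset.mul_sum, mul_assoc] }
  have hinj : Function.Injective M := by
    rw [← LinearMap.ker_eq_bot, LinearMap.ker_eq_bot']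
    intro c hc
    have h1 : MonoidAlgebra.ofCoeff (Finsupp.equivFunOnFinite.symm c) = 0 := by
      apply trace_nondeg hb
      intro g
      rw [toEnd_apply, Finset.sum_mul, map_sum]
      have h2 := congrFun hc g
      change ∑ h, c h * LinearMap.trace K V (b g * b h) = 0 at h2
      rw [← h2]
      refine Finset.sum_congr rfl fun h _ => ?_
      rw [smul_mul_assoc, map_smul, LinearMap.trace_mul_comm]
      rfl
    funext g
    have h2 := congrArg (fun y : MonoidAlgebra K G => y.coeff g) h1
    exact h2
  obtain ⟨c, hc⟩ := (LinearMap.injective_iff_surjective.1 hinj) (fun g => if g = 1 then 1 else 0)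
  refine ⟨c, ?_, fun g hg => ?_⟩
  · have h2 := congrFun hc 1
    change ∑ h, c h * LinearMap.trace K V (b 1 * b h) = _ at h2
    rw [if_pos rfl, map_one] at h2
    simpa only [one_mul] using h2
  · have h2 := congrFun hc g
    rw [if_neg hg] at h2
    exact h2

omit [CharZero K] [Module.Finite K V] in
/-- Operators with nonzero trace form are linearly independent. -/
lemma linInd_of_lefschetz {b : G →* Module.End K V} {p : Module.End K V}
    (h1 : LinearMap.trace K V p ≠ 0) (h : ∀ g, g ≠ 1 → LinearMap.trace K V (p * b g) = 0) :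
    LinearIndependent K b := by
  classical
  rw [Fintype.linearIndependent_iff]
  intro x hx g
  have h2 : LinearMap.trace K V (p * ((∑ h, x h • b h) * b g⁻¹)) = x g * LinearMap.trace K V p := by
    rw [Finset.sum_mul, Finset.mul_sum, map_sum, Finset.sum_eq_single g]
    · rw [smul_mul_assoc, mul_smul_comm, map_smul, ← map_mul, mul_inv_cancel, map_one, mul_one,
        smul_eq_mul]
    · intro h' _ hne
      rw [smul_mul_assoc, mul_smul_comm, map_smul, ← map_mul, h, smul_zero]
      intro h3
      exact hne (mul_inv_eq_one.1 h3)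
    · intro h3
      exact absurd (Finset.mem_univ _) h3
  rw [hx, zero_mul, mul_zero, map_zero] at h2
  exact (mul_eq_zero.1 h2.symm).resolve_right h1

end Pool.Agent.Y112.QB
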