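import Pool.Agent.Y112.QB.Ptr
import Pool.Agent.Y112.QB.Grp
import Pool.Agent.TH132.A.HLf
import Pool.Agent.W534.QOp
import Pool.Agent.W550.B.AddTop
import Pool.Agent.W537.RangeA

/-!
# Lowering operators and the conjecture B
-/

open CategoryTheory AlgebraicGeometry Finset

universe u v

namespace Pool.Agent.Y112.QB

open Pool.Agent.H914 VarClass Obj WeilCohomology

section Lin

variable {K : Type*} [Field K] [CharZero K] {V : Type*} [AddCommGroup V] [Module K V]
  {gr : ℕ → Submodule K V} {n : ℕ} {L : Module.End K V}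

omit [CharZero K] in
/-- The lowering operator is unique. -/
lemma sl2_unique [CharZero K] [Module.Finite K V] {H e f f' : Module.End K V} (t : Sl2 H e f)
    (t' : Sl2 H e f') : f = f' := by
  have ta := Pool.Agent.W537.sl2_adL (K := K) t
  rw [← sub_eq_zero]
  apply Pool.Agent.H447.e_pow_inj ta (c := 2)
  · rw [Pool.Agent.W537.adL_apply]
    have h1 := t.hf
    have h2 := t'.hf
    have h3 : H * (f - f') - (f - f') * H = (H * f - f * H) - (H * f' - f' * H) := by noncomm_ring
    rw [h3, h1, h2]
    have h4 : -((2 : ℕ) : K) • (f - f') = -(2 * (f - f')) := by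
      rw [neg_smul, Nat.cast_smul_eq_nsmul, nsmul_eq_mul]
      push_cast; rfl
    rw [h4]
    noncomm_ring
  · have h3 : (Pool.Agent.W537.adL K e) (f - f') = 0 := by
      rw [Pool.Agent.W537.adL_apply]
      have h4 : e * (f - f') - (f - f') * e = (e * f - f * e) - (e * f' - f' * e) := by
        noncomm_ring
      rw [h4, t.ef, t'.ef, sub_self]
    rw [pow_two, Module.End.mul_apply, h3, map_zero]

/-- Operators of nonzero degree have trace zero. -/
lemma trace_isHom [Module.Finite K V] (h : DirectSum.IsInternal gr) {d : ℤ} (hd : d ≠ 0)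
    {y : Module.End K V} (hy : IsHom gr d y) : LinearMap.trace K V y = 0 := by
  have h1 := hy.wt_comm h 0
  have h2 := congrArg (LinearMap.trace K V) h1
  rw [map_add, map_smul, LinearMap.trace_mul_comm, left_eq_add, smul_eq_mul] at h2
  rcases mul_eq_zero.1 h2 with h3 | h3
  · exact absurd (Int.cast_eq_zero.1 h3) hd
  · exact h3

variable {R : ℤ → Module.End K V → Prop}

/-- The lowering operator is in the algebra. -/
lemma low_mem [Module.Finite K V] (hR : OpAlg gr R) (hRK : ∀ (c : K) {d y}, R d y → R d (c • y))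
    (h : DirectSum.IsInternal gr) (hbd : ∀ i, 2 * n + 1 ≤ i → gr i = ⊥) (hL : R 1 L)
    (hHL : HardLef gr n L)
    (hθ : ∀ c ≤ n, ∃ θ, R (-c) θ ∧ ∀ a ∈ gr (n - c), θ ((L ^ c) a) = a) :
    (∃ f, R (-1) f ∧ Sl2 (wt h n) L f) ∧ R 0 (par h) := by
  have hLh : IsHom gr 2 L := by simpa using hR.hom hL
  obtain ⟨Φ, hΦR, hΦ⟩ := hR.exists_lam h hbd hL hHL hθ
  choose! θ hθR hθ using hθ
  have hproj := hR.proj_mem_of_theta h hbd hL hHL θ hθR hθ
  have hpr : ∀ i, R 0 (proj h i) := by
    intro i
    by_cases hi : i ≤ n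
    · have := (hproj i hi (n - i) (by omega)).1
      rwa [show n - (n - i) = i by omega] at this
    · by_cases hi' : i ≤ 2 * n
      · have := (hproj (2 * n - i) (by omega) (i - n) (by omega)).2
        rwa [show n + (i - n) = i by omega] at this
      · have : proj h i = 0 := by
          apply gr_ext h
          intro j a ha
          by_cases hj : j = i
          · subst hj
            rw [hbd j (by omega)] at ha
            rw [(Submodule.mem_bot _).1 ha, map_zero, map_zero]
          · rw [proj_ne h ha hj, LinearMap.zero_apply]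
        rw [this]
        exact hR.zero 0
  refine ⟨?_, ?_⟩
  · obtain ⟨Lam, t, -, hval⟩ := exists_sl2 h hLh hbd hHL
    refine ⟨Lam, ?_, t⟩
    have hF : Lam = ∑ i ∈ range (n + 1), ∑ j ∈ range (n - i + 1),
        ((j : K) * (((n - i : ℕ) : K) - j + 1)) • (Φ * eij h L Φ i j) := by
      apply LinearMap.ext
      intro x
      refine lef_induction' h hLh hbd hHL (p := fun x => Lam x = (∑ i ∈ range (n + 1),
        ∑ j ∈ range (n - i + 1), ((j : K) * (((n - i : ℕ) : K) - j + 1)) •
          (Φ * eij h L Φ i j)) x) ?_ ?_ x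
      · intro a b ha hb; rw [map_add, map_add, ha, hb]
      · intro i hi a ha hp j
        by_cases hj : j ≤ n - i
        · rw [hval i hi a ha hp j hj, LinearMap.sum_apply, Finset.sum_eq_single i]
          · rw [LinearMap.sum_apply, Finset.sum_eq_single j]
            · rw [LinearMap.smul_apply, Module.End.mul_apply, eij_apply h hLh hΦ hi ha hp hj,
                if_pos ⟨rfl, rfl⟩]
              rcases Nat.eq_zero_or_pos j with rfl | h0
              · simp
              · have := (hΦ i hi a ha hp).2 (j - 1) (by omega)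
                rw [show j - 1 + 1 = j by omega] at this
                rw [this]
            · intro j' _ hj'
              rw [LinearMap.smul_apply, Module.End.mul_apply, eij_apply h hLh hΦ hi ha hp hj,
                if_neg (by tauto), map_zero, smul_zero]
            · intro h'; exact absurd (Finset.mem_range.2 (by omega)) h'
          · intro i' _ hi'
            rw [LinearMap.sum_apply]
            apply Finset.sum_eq_zero
            intro j' _
            rw [LinearMap.smul_apply, Module.End.mul_apply, eij_apply h hLh hΦ hi ha hp hj,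
              if_neg (by tauto), map_zero, smul_zero]
          · intro h'; exact absurd (Finset.mem_range.2 (by omega)) h'
        · rw [L_pow_gt hp (by omega), map_zero, map_zero]
    rw [hF]
    apply hR.sum
    intro i _
    apply hR.sum
    intro j _
    apply hRK
    unfold eij
    have h2 : R 0 (1 - L * Φ) := hR.sub hR.one (hR.cast (hR.mul hL hΦR) (by ring))
    exact hR.cast (hR.mul hΦR (hR.mul (hR.pow hL j) (hR.mul (hR.mul h2 (hpr i))
      (hR.pow hΦR j)))) (by ring)
  · have h1 : par h = ∑ i ∈ range (2 * n + 1), ((-1 : K) ^ i) • proj h i :=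
      scal_eq_sum h (N := 2 * n + 1) (fun i hi => hbd i hi) _
    rw [h1]
    exact hR.sum fun i _ => hRK _ (hpr i)

end Lin

variable {k : Type u} [Field k] {𝒱 : VarClass k} {ops : CycleOps 𝒱}
  {W : WeilCohomology.{u, v} ops} {X Y Z : 𝒱.Obj}

lemma kop_opAlg : OpAlg (W.gr X) (fun d y => y ∈ KOp W X X d) := by
  have h := (rop_opAlg (W := W) (X := X)).kspan
  have e : (fun d y => y ∈ KS (ROp W X) d) = (fun d y => y ∈ KOp W X X d) := by
    funext d y
    exact propext mem_KS_iff
  rwa [e] at h

/-- The conjecture B in terms of the lowering operator, and the parity operator. -/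
lemma low_of_B {D E : X.Cycles} (hD : Pool.Agent.W550.B.IsLefschetzDivisor W X D)
    (hE : Pool.Agent.W550.B.IsLefschetzDivisor W X E) (hB : LefschetzB W X D) :
    (∃ f ∈ KOp W X X (-1), Sl2 (wt (W.isInternal X) X.dim) (LinearMap.mulLeft W.K (W.cl X E)) f) ∧
      par (W.isInternal X) ∈ KOp W X X 0 := by
  have hinj := inj_of_lefschetzB hD.1 hD.2 hB
  have hLK : LinearMap.mulLeft W.K (W.cl X E) ∈ KS (ROp W X) 1 :=
    Submodule.subset_span (rop_mulLeft hE.1)
  have h1 := low_mem (n := X.dim) (L := LinearMap.mulLeft W.K (W.cl X E)) kop_opAlg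
    (fun c {d y} hy => Submodule.smul_mem _ c hy) (W.isInternal X) W_hbd (mem_KS_iff.1 hLK) hE.2
    (fun c hc => by
      obtain ⟨ν, hν, hi⟩ := hinj c hc
      obtain ⟨θ, hθ, h2⟩ := rop_opAlg.exists_theta_of_inj hLK hE.2 hc (mem_KS_iff.2 hν) hi
      exact ⟨θ, mem_KS_iff.1 hθ, h2⟩)
  obtain ⟨⟨f, hf, t⟩, hp⟩ := h1
  exact ⟨⟨f, hf, t⟩, hp⟩

/-- The conjecture B from the lowering operator. -/
lemma B_of_low {D E : X.Cycles} (hD : Pool.Agent.W550.B.IsLefschetzDivisor W X D)
    {f : Module.End W.K (W.H X)} (hf : f ∈ KOp W X X (-1))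
    (t : Sl2 (wt (W.isInternal X) X.dim) (LinearMap.mulLeft W.K (W.cl X E)) f) :
    LefschetzB W X D := by
  apply lefschetzB_of_inj hD.1 hD.2
  intro c _
  refine ⟨f ^ c, ?_, ?_⟩
  · exact kop_opAlg.cast (kop_opAlg.pow hf c) (by ring)
  · intro a ha h0
    apply Pool.Agent.H447.f_pow_inj t _ h0
    rw [wt, scal_apply _ _ ha]
    congr 1
    rw [node]
    push_cast; ring

end Pool.Agent.Y112.QB
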