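import Pool.Agent.Y112.QB.Quot

/-!
# The conjecture B for quotients of products: main theorem
-/

open CategoryTheory AlgebraicGeometry

universe u v

namespace Pool.Agent.Y112.QB

open Pool.Agent.H914 VarClass Obj WeilCohomology Pool.Agent.W550.B

lemma sl2_conj {A : Type*} [Ring A] {H e f a b : A} (t : Sl2 H e f) (hab : a * b = 1)
    (hba : b * a = 1) (hH : a * H = H * a) (he : a * e = e * a) : Sl2 H e (a * f * b) := by
  have hbe : b * e = e * b := by
    calc b * e = b * e * (a * b) := by rw [hab, mul_one]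
      _ = b * (e * a) * b := by noncomm_ring
      _ = b * (a * e) * b := by rw [he]
      _ = b * a * e * b := by noncomm_ring
      _ = e * b := by rw [hba, one_mul]
  have hbH : b * H = H * b := by
    calc b * H = b * H * (a * b) := by rw [hab, mul_one]
      _ = b * (H * a) * b := by noncomm_ring
      _ = b * (a * H) * b := by rw [hH]
      _ = b * a * H * b := by noncomm_ring
      _ = H * b := by rw [hba, one_mul]
  refine ⟨?_, t.he, ?_⟩
  · calc e * (a * f * b) - a * f * b * e = (e * a) * f * b - a * f * (b * e) := by noncomm_ring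
      _ = a * (e * f - f * e) * b := by rw [← he, hbe]; noncomm_ring
      _ = H * (a * b) := by rw [t.ef, hH]; noncomm_ring
      _ = H := by rw [hab, mul_one]
  · calc H * (a * f * b) - a * f * b * H = (H * a) * f * b - a * f * (b * H) := by noncomm_ring
      _ = a * (H * f - f * H) * b := by rw [← hH, hbH]; noncomm_ring
      _ = -(2 * (a * f * b)) := by rw [t.hf]; noncomm_ring

variable {k : Type u} [Field k] {𝒱 : VarClass k} {ops : CycleOps 𝒱}
  {W : WeilCohomology.{u, v} ops} {X Y Z : 𝒱.Obj} {G : Type} [Group G]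

lemma act_inv (ρ : G →* End X) (g : G) : act W ρ g * act W ρ g⁻¹ = 1 := by
  rw [← map_mul, mul_inv_cancel, map_one]

lemma act_inv' (ρ : G →* End X) (g : G) : act W ρ g⁻¹ * act W ρ g = 1 := by
  rw [← map_mul, inv_mul_cancel, map_one]

lemma act_wt (ρ : G →* End X) (g : G) : act W ρ g * wt (W.isInternal X) X.dim =
    wt (W.isInternal X) X.dim * act W ρ g := by
  have := (act_isHom (W := W) ρ g).wt_comm (W.isInternal X) X.dim
  rw [this]
  simp

lemma act_L {ρ : G →* End X} {D : X.Cycles} (hD : IsInvariantLefschetz W ρ D) (g : G) :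
    act W ρ g * LinearMap.mulLeft W.K (W.cl X D) =
      LinearMap.mulLeft W.K (W.cl X D) * act W ρ g := by
  apply LinearMap.ext
  intro a
  rw [Module.End.mul_apply, Module.End.mul_apply, LinearMap.mulLeft_apply,
    LinearMap.mulLeft_apply, act_apply, act_apply, map_mul, hD.invariant]

lemma act_low {ρ : G →* End X} {D : X.Cycles} (hD : IsInvariantLefschetz W ρ D)
    {f : Module.End W.K (W.H X)}
    (t : Sl2 (wt (W.isInternal X) X.dim) (LinearMap.mulLeft W.K (W.cl X D)) f) (g : G) :
    act W ρ g * f = f * act W ρ g := by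
  have h1 := sl2_unique t (sl2_conj t (act_inv ρ g) (act_inv' ρ g) (act_wt ρ g) (act_L hD g))
  calc act W ρ g * f = act W ρ g * f * (act W ρ g⁻¹ * act W ρ g) := by
        rw [act_inv', mul_one]
    _ = (act W ρ g * f * act W ρ g⁻¹) * act W ρ g := by simp only [mul_assoc]
    _ = f * act W ρ g := by rw [← h1]

/-- Hard Lefschetz for products. -/
theorem hardLefschetz_prod {D : X.Cycles} {E : Y.Cycles} (hD : X.IsCyc 1 D)
    (hE : Y.IsCyc 1 E) (h1 : HardLefschetz W X D) (h2 : HardLefschetz W Y E) :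
    HardLefschetz W (X.prod Y) (ops.pull (fst X Y) D + ops.pull (snd X Y) E) := by
  obtain ⟨f, tf⟩ := Pool.Agent.TH132.A.exists_low hD h1
  obtain ⟨g, tg⟩ := Pool.Agent.TH132.A.exists_low hE h2
  have t := Pool.Agent.TH132.A.low_prod hE tf tg
  refine Pool.Agent.TH132.A.hardLefschetz_of_inj
    (SmVar.IsCyc.add (ops.pull_mem _ hD) (ops.pull_mem _ hE)) fun i hi a ha h0 => ?_
  by_contra ha0
  refine Sl2.e_pow_inj t (x := a) (M := (X.prod Y).dim - i) ?_ ha0 le_rfl h0
  rw [wt, scal_apply _ _ ha, node]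
  congr 1
  rw [Nat.cast_sub hi]
  push_cast
  ring

variable [Fintype G] {ρ : G →* End X} {σ : G →* End Y} {π : X.prod Y ⟶ Z}

lemma avg_low {D : X.Cycles} {E : Y.Cycles} (hD : IsInvariantLefschetz W ρ D)
    (hE : IsInvariantLefschetz W σ E) {f : Module.End W.K (W.H X)} {g : Module.End W.K (W.H Y)}
    (t : Sl2 (wt (W.isInternal X) X.dim) (LinearMap.mulLeft W.K (W.cl X D)) f)
    (t' : Sl2 (wt (W.isInternal Y) Y.dim) (LinearMap.mulLeft W.K (W.cl Y E)) g) :
    avg W ρ σ * extSum W f g = extSum W f g * avg W ρ σ := by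
  rw [avg, Finset.sum_mul, Finset.mul_sum]
  refine Finset.sum_congr rfl fun s _ => ?_
  rw [extSum, extL_apply, extR_apply, mul_add, add_mul, extOp_mul, extOp_mul, extOp_mul, extOp_mul,
    act_low hD t, act_low hE t', one_mul, mul_one, one_mul, mul_one]

namespace IsQuotient

lemma pp (h : IsQuotient W ρ σ π) (x : W.H (X.prod Y)) :
    W.map π (W.push π x) = avg W ρ σ x := by
  rw [h.pull_push, avg_eq]

lemma push_gr (h : IsQuotient W ρ σ π) {i : ℕ} {x : W.H (X.prod Y)} (hx : x ∈ W.gr _ i) :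
    W.push π x ∈ W.gr Z i := by
  have := W.push_mem π hx
  rw [h.dim_eq, dim_prod, sub_self, mul_zero, add_zero, grZ_natCast] at this
  exact this

lemma push_map (h : IsQuotient W ρ σ π) (z : W.H Z) :
    W.push π (W.map π z) = (Fintype.card G : W.K) • z := h.push_pull z

lemma wt_map (h : IsQuotient W ρ σ π) (z : W.H Z) :
    wt (W.isInternal (X.prod Y)) (X.prod Y).dim (W.map π z) =
      W.map π (wt (W.isInternal Z) Z.dim z) := by
  refine gr_induction (W.isInternal Z) (p := fun z =>
    wt (W.isInternal (X.prod Y)) (X.prod Y).dim (W.map π z) =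
      W.map π (wt (W.isInternal Z) Z.dim z)) ?_ ?_ z
  · intro i z hz
    rw [wt, wt, scal_apply _ _ (W.map_mem π hz), scal_apply _ _ hz, map_smul, h.dim_eq, dim_prod]
  · intro a b ha hb
    rw [map_add, map_add, ha, hb, map_add, map_add]

lemma wt_push (h : IsQuotient W ρ σ π) (x : W.H (X.prod Y)) :
    wt (W.isInternal Z) Z.dim (W.push π x) =
      W.push π (wt (W.isInternal (X.prod Y)) (X.prod Y).dim x) := by
  refine gr_induction (W.isInternal (X.prod Y)) (p := fun x =>
    wt (W.isInternal Z) Z.dim (W.push π x) =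
      W.push π (wt (W.isInternal (X.prod Y)) (X.prod Y).dim x)) ?_ ?_ x
  · intro i x hx
    rw [wt, wt, scal_apply _ _ (h.push_gr hx), scal_apply _ _ hx, map_smul, h.dim_eq, dim_prod]
  · intro a b ha hb
    rw [map_add, map_add, ha, hb, map_add, map_add]

lemma par_map (z : W.H Z) : par (W.isInternal (X.prod Y)) (W.map π z) =
    W.map π (par (W.isInternal Z) z) := by
  refine gr_induction (W.isInternal Z) (p := fun z =>
    par (W.isInternal (X.prod Y)) (W.map π z) = W.map π (par (W.isInternal Z) z)) ?_ ?_ z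
  · intro i z hz
    rw [par, par, scal_apply _ _ (W.map_mem π hz), scal_apply _ _ hz, map_smul]
  · intro a b ha hb
    rw [map_add, map_add, ha, hb, map_add, map_add]

/-- The divisor on the quotient. -/
lemma exists_divisor (h : IsQuotient W ρ σ π) {D : X.Cycles} {E : Y.Cycles}
    (hD : IsInvariantLefschetz W ρ D) (hE : IsInvariantLefschetz W σ E) :
    ∃ F : Z.Cycles, Z.IsCyc 1 F ∧
      W.map π (W.cl Z F) = W.cl _ (ops.pull (fst X Y) D + ops.pull (snd X Y) E) := by
  refine ⟨((Fintype.card G : ℚ)⁻¹) • ops.push π (ops.pull (fst X Y) D + ops.pull (snd X Y) E),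
    SmVar.IsCyc.smul _ (ops.push_mem π (SmVar.IsCyc.add (ops.pull_mem _ hD.isLefschetz.1)
      (ops.pull_mem _ hE.isLefschetz.1)) (by rw [h.dim_eq, dim_prod])), ?_⟩
  have h1 : ∀ g, W.map (bi (ρ g) (σ g)) (W.cl _ (ops.pull (fst X Y) D + ops.pull (snd X Y) E)) =
      W.cl _ (ops.pull (fst X Y) D + ops.pull (snd X Y) E) := by
    intro g
    have e1 : bi (ρ g) (σ g) ≫ fst X Y = fst X Y ≫ ρ g := Obj.lift_fst _ _
    have e2 : bi (ρ g) (σ g) ≫ snd X Y = snd X Y ≫ σ g := Obj.lift_snd _ _
    rw [map_add, map_add, W.cl_pull, W.cl_pull, ← W.map_comp, ← W.map_comp, e1, e2, W.map_comp,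
      W.map_comp, hD.invariant, hE.invariant]
  rw [cl_smul, W.cl_push, map_smul, h.pull_push, Finset.sum_congr rfl (fun g _ => h1 g),
    Finset.sum_const, Finset.card_univ, ← Nat.cast_smul_eq_nsmul W.K, smul_smul]
  have h2 : (Fintype.card G : W.K) ≠ 0 := by exact_mod_cast Fintype.card_ne_zero
  push_cast
  rw [inv_mul_cancel₀ h2, one_smul]

lemma map_L {F : Z.Cycles} {C : (X.prod Y).Cycles} (hF : W.map π (W.cl Z F) = W.cl _ C)
    (z : W.H Z) : W.map π (LinearMap.mulLeft W.K (W.cl Z F) z) =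
      LinearMap.mulLeft W.K (W.cl _ C) (W.map π z) := by
  rw [LinearMap.mulLeft_apply, LinearMap.mulLeft_apply, map_mul (W.map π), hF]

lemma push_L {F : Z.Cycles} (hF1 : Z.IsCyc 1 F) {C : (X.prod Y).Cycles}
    (hF : W.map π (W.cl Z F) = W.cl _ C)
    (x : W.H (X.prod Y)) : LinearMap.mulLeft W.K (W.cl Z F) (W.push π x) =
      W.push π (LinearMap.mulLeft W.K (W.cl _ C) x) := by
  rw [LinearMap.mulLeft_apply, LinearMap.mulLeft_apply, W.mul_push π (W.cl_mem hF1), hF]

lemma hardLefschetz (h : IsQuotient W ρ σ π) {F : Z.Cycles}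
    (hF1 : Z.IsCyc 1 F) {C : (X.prod Y).Cycles} (hF : W.map π (W.cl Z F) = W.cl _ C)
    (hC : HardLefschetz W (X.prod Y) C) : HardLefschetz W Z F := by
  have hpow : ∀ (m : ℕ) (z : W.H Z), W.map π ((LinearMap.mulLeft W.K (W.cl Z F) ^ m) z) =
      (LinearMap.mulLeft W.K (W.cl _ C) ^ m) (W.map π z) := by
    intro m
    induction m with
    | zero => intro z; simp
    | succ m ih =>
      intro z
      rw [pow_succ', Module.End.mul_apply, map_L hF, ih, pow_succ', Module.End.mul_apply]
  have hd : (X.prod Y).dim = Z.dim := by rw [h.dim_eq, dim_prod]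
  refine Pool.Agent.TH132.A.hardLefschetz_of_inj hF1 fun i hi a ha h0 => ?_
  have h2 : (LinearMap.mulLeft W.K (W.cl _ C) ^ ((X.prod Y).dim - i)) (W.map π a) = 0 := by
    rw [← hpow, hd, h0, map_zero]
  have h3 := (hC i (by rw [hd]; exact hi)).1 _ (W.map_mem π ha) h2
  have h4 := h.push_map a
  rw [h3, map_zero] at h4
  exact (smul_eq_zero.1 h4.symm).resolve_left (by exact_mod_cast Fintype.card_ne_zero)

/-- The lowering operator of the quotient. -/
theorem low (h : IsQuotient W ρ σ π) {F : Z.Cycles}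
    (hF1 : Z.IsCyc 1 F) {C : (X.prod Y).Cycles} (hF : W.map π (W.cl Z F) = W.cl _ C)
    {f : Module.End W.K (W.H (X.prod Y))}
    (t : Sl2 (wt (W.isInternal (X.prod Y)) (X.prod Y).dim)
      (LinearMap.mulLeft W.K (W.cl _ C)) f) :
    Sl2 (wt (W.isInternal Z) Z.dim) (LinearMap.mulLeft W.K (W.cl Z F))
      (((Fintype.card G : W.K)⁻¹) • (W.push π ∘ₗ f ∘ₗ (W.map π).toLinearMap)) := by
  have hc : (Fintype.card G : W.K) ≠ 0 := by exact_mod_cast Fintype.card_ne_zero
  refine ⟨?_, ?_, ?_⟩
  · apply LinearMap.ext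
    intro z
    rw [LinearMap.sub_apply, Module.End.mul_apply, Module.End.mul_apply, LinearMap.smul_apply,
      LinearMap.smul_apply, map_smul, ← smul_sub, LinearMap.comp_apply, LinearMap.comp_apply,
      LinearMap.comp_apply, LinearMap.comp_apply, AlgHom.toLinearMap_apply,
      AlgHom.toLinearMap_apply, map_L hF, push_L hF1 hF, ← map_sub]
    have e1 := congrArg (fun A => A (W.map π z)) t.ef
    rw [LinearMap.sub_apply, Module.End.mul_apply, Module.End.mul_apply] at e1
    rw [e1, h.wt_map, h.push_map, smul_smul, inv_mul_cancel₀ hc, one_smul]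
  · have h2 := (mulLeft_isHom (W := W) hF1).wt_comm (W.isInternal Z) Z.dim
    rw [h2, add_sub_cancel_left]
    push_cast
    rw [ofNat_smul_eq_nsmul, nsmul_eq_mul]
    rfl
  · apply LinearMap.ext
    intro z
    rw [LinearMap.sub_apply, Module.End.mul_apply, Module.End.mul_apply, LinearMap.smul_apply,
      LinearMap.smul_apply, map_smul, ← smul_sub, LinearMap.comp_apply, LinearMap.comp_apply,
      LinearMap.comp_apply, LinearMap.comp_apply, AlgHom.toLinearMap_apply,
      AlgHom.toLinearMap_apply, h.wt_push, ← h.wt_map, ← map_sub]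
    have e1 := congrArg (fun A => A (W.map π z)) t.hf
    rw [LinearMap.sub_apply, Module.End.mul_apply, Module.End.mul_apply] at e1
    rw [e1, LinearMap.neg_apply, LinearMap.neg_apply, two_mul, two_mul, LinearMap.add_apply,
      LinearMap.add_apply, LinearMap.smul_apply, LinearMap.comp_apply, LinearMap.comp_apply,
      AlgHom.toLinearMap_apply, map_neg, map_add, smul_neg, smul_add]

end IsQuotient

lemma kop_push (h : IsQuotient W ρ σ π) : W.push π ∈ KOp W (X.prod Y) Z 0 :=
  KOp.cast (Pool.Agent.W534.qop_push (W := W) π).kop (by rw [h.dim_eq, dim_prod, sub_self])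

lemma kop_map (π : X.prod Y ⟶ Z) : (W.map π).toLinearMap ∈ KOp W Z (X.prod Y) 0 :=
  (Pool.Agent.W534.qop_pull (W := W) π).kop

/-- **The conjecture B for the quotient implies the conjecture B for the first factor.** -/
theorem forward (h : IsQuotient W ρ σ π) {D : X.Cycles} {E : Y.Cycles} {F : Z.Cycles}
    (hD : IsInvariantLefschetz W ρ D) (hE : IsInvariantLefschetz W σ E)
    (hF : IsLefschetzDivisor W Z F) (hσ : ActsIndependently W σ) (hB : LefschetzB W Z F) :
    LefschetzB W X D := by
  obtain ⟨fX, tX, -, -⟩ := exists_sl2 (W.isInternal X) (mulLeft_isHom hD.isLefschetz.1) W_hbd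
    hD.isLefschetz.2
  obtain ⟨fY, tY, hYh, -⟩ := exists_sl2 (W.isInternal Y) (mulLeft_isHom hE.isLefschetz.1) W_hbd
    hE.isLefschetz.2
  have tP := Pool.Agent.TH132.A.low_prod hE.isLefschetz.1 (D := D) tX tY
  rw [Pool.Agent.TH132.A.Low] at tP
  obtain ⟨F', hF1, hF'⟩ := h.exists_divisor hD hE
  have hHL := h.hardLefschetz hF1 hF' (hardLefschetz_prod hD.isLefschetz.1 hE.isLefschetz.1
    hD.isLefschetz.2 hE.isLefschetz.2)
  obtain ⟨⟨fZ, hfZ, tZ⟩, hpZ⟩ := low_of_B hF ⟨hF1, hHL⟩ hB
  have hfZ' := sl2_unique tZ (h.low hF1 hF' tP)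
  have hc : (Fintype.card G : W.K) ≠ 0 := by exact_mod_cast Fintype.card_ne_zero
  -- the operator on the product
  have key : ∀ z, W.map π (fZ z) = extSum W fX fY (W.map π z) := by
    intro z
    have e1 := congrArg (fun A => A (W.map π z)) (avg_low hD hE tX tY)
    rw [Module.End.mul_apply, Module.End.mul_apply, ← h.pp (W.map π z), h.push_map,
      map_smul, map_smul] at e1
    rw [hfZ', LinearMap.smul_apply, LinearMap.comp_apply, LinearMap.comp_apply,
      AlgHom.toLinearMap_apply, map_smul, h.pp, e1, smul_smul, inv_mul_cancel₀ hc, one_smul]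
  have hT1 : (W.map π).toLinearMap ∘ₗ par (W.isInternal Z) ∘ₗ W.push π =
      ∑ g, extOp W (par (W.isInternal X) * act W ρ g) (par (W.isInternal Y) * act W σ g) := by
    have e1 : (W.map π).toLinearMap ∘ₗ par (W.isInternal Z) ∘ₗ W.push π =
        par (W.isInternal (X.prod Y)) * avg W ρ σ := by
      apply LinearMap.ext
      intro x
      rw [LinearMap.comp_apply, LinearMap.comp_apply, AlgHom.toLinearMap_apply,
        ← IsQuotient.par_map, h.pp, Module.End.mul_apply]
    rw [e1, par_prod, avg, Finset.mul_sum]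
    exact Finset.sum_congr rfl fun g _ => extOp_mul _ _ _ _
  have hT2 : (W.map π).toLinearMap ∘ₗ (fZ * par (W.isInternal Z)) ∘ₗ W.push π =
      ∑ g, extOp W (fX * par (W.isInternal X) * act W ρ g) (par (W.isInternal Y) * act W σ g) +
        ∑ g, extOp W (par (W.isInternal X) * act W ρ g)
          (fY * par (W.isInternal Y) * act W σ g) := by
    have e1 : (W.map π).toLinearMap ∘ₗ (fZ * par (W.isInternal Z)) ∘ₗ W.push π =
        extSum W fX fY * (par (W.isInternal (X.prod Y)) * avg W ρ σ) := by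
      apply LinearMap.ext
      intro x
      rw [LinearMap.comp_apply, LinearMap.comp_apply, AlgHom.toLinearMap_apply,
        Module.End.mul_apply, key, ← IsQuotient.par_map, h.pp, Module.End.mul_apply,
        Module.End.mul_apply]
    rw [e1, par_prod, avg, Finset.mul_sum, Finset.mul_sum, ← Finset.sum_add_distrib]
    refine Finset.sum_congr rfl fun g _ => ?_
    rw [extOp_mul, extSum, extL_apply, extR_apply, add_mul, extOp_mul, extOp_mul, one_mul, one_mul,
      mul_assoc fX, mul_assoc fY]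
  have hK1 : (W.map π).toLinearMap ∘ₗ par (W.isInternal Z) ∘ₗ W.push π ∈
      KOp W (X.prod Y) (X.prod Y) 0 :=
    KOp.cast (KOp.comp (kop_map π) (KOp.comp hpZ (kop_push h))) (by ring)
  have hK2 : (W.map π).toLinearMap ∘ₗ (fZ * par (W.isInternal Z)) ∘ₗ W.push π ∈
      KOp W (X.prod Y) (X.prod Y) (-1) := by
    have h2 : fZ * par (W.isInternal Z) ∈ KOp W Z Z (-1) :=
      KOp.cast (KOp.comp hfZ hpZ) (by ring)
    exact KOp.cast (KOp.comp (kop_map π) (KOp.comp h2 (kop_push h))) (by ring)
  have hpX : par (W.isInternal X) ∈ KOp W X X 0 := by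
    refine slice (ρ := ρ) hσ (φ' := 0) (ψ := 0) (isHom_zero _) ?_
    rw [hT1] at hK1
    simpa [extOp_zero_left] using hK1
  have hfpX : fX * par (W.isInternal X) ∈ KOp W X X (-1) := by
    have hψ : IsHom (W.gr Y) (-2) (fY * par (W.isInternal Y)) := by
      have h2 : IsHom (W.gr Y) 0 (par (W.isInternal Y)) := isHom_scal _ _
      have := hYh.mul h2
      simpa using this
    refine slice (ρ := ρ) hσ (φ' := par (W.isInternal X)) hψ ?_
    rw [hT2] at hK2
    exact hK2
  have hfX : fX ∈ KOp W X X (-1) := by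
    have h2 : (fX * par (W.isInternal X)) * par (W.isInternal X) ∈ KOp W X X (-1) :=
      KOp.cast (KOp.comp hfpX hpX) (by ring)
    rwa [mul_assoc, par_mul_par, mul_one] at h2
  exact B_of_low hD.isLefschetz hfX tX

/-- **The conjecture B for the factors implies the conjecture B for the quotient.** -/
theorem backward (h : IsQuotient W ρ σ π) {D : X.Cycles} {E : Y.Cycles} {F : Z.Cycles}
    (hD : IsInvariantLefschetz W ρ D) (hE : IsInvariantLefschetz W σ E)
    (hF : IsLefschetzDivisor W Z F) (hBX : LefschetzB W X D) (hBY : LefschetzB W Y E) :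
    LefschetzB W Z F := by
  obtain ⟨⟨fX, hfX, tX⟩, -⟩ := low_of_B hD.isLefschetz hD.isLefschetz hBX
  obtain ⟨⟨fY, hfY, tY⟩, -⟩ := low_of_B hE.isLefschetz hE.isLefschetz hBY
  have tP := Pool.Agent.TH132.A.low_prod hE.isLefschetz.1 (D := D) tX tY
  rw [Pool.Agent.TH132.A.Low] at tP
  obtain ⟨F', hF1, hF'⟩ := h.exists_divisor hD hE
  have t := h.low hF1 hF' tP
  refine B_of_low hF ?_ t
  apply Submodule.smul_mem
  have h2 : extSum W fX fY ∈ KOp W (X.prod Y) (X.prod Y) (-1) := by
    rw [extSum, extL_apply, extR_apply]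
    exact Submodule.add_mem _ (KOp.cast (KOp.ext hfX (KOp.id Y)) (by ring))
      (KOp.cast (KOp.ext (KOp.id X) hfY) (by ring))
  exact KOp.cast (KOp.comp (kop_push h) (KOp.comp h2 (kop_map π))) (by ring)

end Pool.Agent.Y112.QB
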