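import Pool.Agent.H914R2.ExtOp

/-!
# Partial super traces of correspondences on a product
-/

open CategoryTheory AlgebraicGeometry TensorProduct

universe u v

namespace Pool.Agent.Y112.QB

open Pool.Agent.H914 VarClass Obj WeilCohomology

variable {k : Type u} [Field k] {𝒱 : VarClass k} {ops : CycleOps 𝒱}
  {W : WeilCohomology.{u, v} ops} {X Y Z : 𝒱.Obj}

/-- The super trace. -/
noncomputable def st (W : WeilCohomology.{u, v} ops) (Y : 𝒱.Obj) :
    Module.End W.K (W.H Y) →ₗ[W.K] W.K :=
  LinearMap.trace W.K (W.H Y) ∘ₗ LinearMap.mulLeft W.K (par (W.isInternal Y))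

lemma st_apply (ψ : Module.End W.K (W.H Y)) :
    st W Y ψ = LinearMap.trace W.K (W.H Y) (par (W.isInternal Y) * ψ) := rfl

/-- The partial super trace of an operator on the cohomology of `X × Y` over the second factor. -/
noncomputable def ptr (W : WeilCohomology.{u, v} ops) (X Y : 𝒱.Obj) :
    Module.End W.K (W.H (X.prod Y)) →ₗ[W.K] Module.End W.K (W.H X) :=
  (TensorProduct.rid W.K (Module.End W.K (W.H X))).toLinearMap ∘ₗ
    LinearMap.lTensor (Module.End W.K (W.H X)) (st W Y) ∘ₗ
    (homTensorHomEquiv W.K (W.H X) (W.H Y) (W.H X) (W.H Y)).symm.toLinearMap ∘ₗ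
    (LinearEquiv.conj (kappa W X Y).symm).toLinearMap

lemma ptr_extOp (φ : Module.End W.K (W.H X)) (ψ : Module.End W.K (W.H Y)) :
    ptr W X Y (extOp W φ ψ) = st W Y ψ • φ := by
  have h1 : (LinearEquiv.conj (kappa W X Y).symm) (extOp W φ ψ) = TensorProduct.map φ ψ := by
    rw [LinearEquiv.conj_apply, extOp]
    apply LinearMap.ext
    intro x
    simp
  have h2 : (homTensorHomEquiv W.K (W.H X) (W.H Y) (W.H X) (W.H Y)).symm
      (TensorProduct.map φ ψ) = φ ⊗ₜ ψ := by
    rw [LinearEquiv.symm_apply_eq, homTensorHomEquiv_apply]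
    rfl
  rw [ptr, LinearMap.comp_apply, LinearMap.comp_apply, LinearMap.comp_apply]
  simp only [LinearEquiv.coe_coe]
  rw [h1, h2, LinearMap.lTensor_tmul, TensorProduct.rid_tmul]

/-- The external product of correspondences, with the sign. -/
lemma corr_ext_sgn (c : W.H (X.prod X)) {m : ℕ} {d : W.H (Y.prod Y)} (hd : d ∈ W.gr _ m) {i : ℕ}
    {a : W.H X} (ha : a ∈ W.gr X i) (b : W.H Y) :
    W.corr (W.map (q1 X Y) c * W.map (q2 X Y) d) (W.map (fst X Y) a * W.map (snd X Y) b) =
      (-1 : W.K) ^ (m * i) • (W.map (fst X Y) (W.corr c a) * W.map (snd X Y) (W.corr d b)) := by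
  rw [corr_apply, corr_apply, corr_apply, ← push_ext, ← map_smul]
  congr 1
  have e1 : W.map (fst _ _) (W.map (fst X Y) a) = W.map (q1 X Y) (W.map (fst X X) a) := by
    have := q1_tmul (W := W) (Z := Y) a 1
    rw [map_one, map_one, map_one, mul_one, mul_one] at this
    exact this.symm
  have e2 : W.map (fst _ _) (W.map (snd X Y) b) = W.map (q2 X Y) (W.map (fst Y Y) b) := by
    have := q2_tmul (W := W) (Y := X) b 1
    rw [map_one, map_one, map_one, mul_one, mul_one] at this
    exact this.symm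
  rw [map_mul (W.map (fst (X.prod Y) (X.prod Y))), e1, e2, map_mul (W.map (q1 X Y)),
    map_mul (W.map (q2 X Y)), mul_assoc, ← mul_assoc (W.map (q2 X Y) d),
    W.comm (W.map_mem _ hd) (W.map_mem (q1 X Y) (W.map_mem (fst X X) ha))]
  simp only [mul_assoc, smul_mul_assoc, mul_smul_comm]

/-- The operator given by an external product. -/
lemma corr_ext_eq (c : W.H (X.prod X)) {m : ℕ} {d : W.H (Y.prod Y)} (hd : d ∈ W.gr _ m) :
    W.corr (W.map (q1 X Y) c * W.map (q2 X Y) d) =
      extOp W (W.corr c * scal (W.isInternal X) (fun i => (-1 : W.K) ^ (m * i))) (W.corr d) := by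
  apply ext_kunneth_lin
  intro a b
  refine gr_induction (W.isInternal X) (p := fun a =>
    W.corr (W.map (q1 X Y) c * W.map (q2 X Y) d) (W.map (fst X Y) a * W.map (snd X Y) b) =
    extOp W (W.corr c * scal (W.isInternal X) (fun i => (-1 : W.K) ^ (m * i))) (W.corr d)
      (W.map (fst X Y) a * W.map (snd X Y) b)) ?_ ?_ a
  · intro i a ha
    rw [corr_ext_sgn c hd ha, extOp_tmul, Module.End.mul_apply, scal_apply _ _ ha, map_smul,
      map_smul, smul_mul_assoc]
  · intro a a' h h'
    rw [map_add, add_mul, map_add, map_add, h, h']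

/-- The map `(X × X) × Y → (X × Y) × (X × Y)`. -/
noncomputable def jm (X Y : 𝒱.Obj) : (X.prod X).prod Y ⟶ (X.prod Y).prod (X.prod Y) :=
  Obj.lift (Obj.lift (fst (X.prod X) Y ≫ fst X X) (snd (X.prod X) Y))
    (Obj.lift (fst (X.prod X) Y ≫ snd X X) (snd (X.prod X) Y))

lemma hom_ext_prod {V X Y : 𝒱.Obj} {f g : V ⟶ X.prod Y} (h1 : f ≫ fst X Y = g ≫ fst X Y)
    (h2 : f ≫ snd X Y = g ≫ snd X Y) : f = g := by
  apply SmVar.hom_ext
  apply Limits.pullback.hom_ext
  · exact congrArg SmVar.Hom.hom h1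
  · exact congrArg SmVar.Hom.hom h2

lemma jm_q1 : jm X Y ≫ q1 X Y = fst (X.prod X) Y := by
  apply hom_ext_prod
  · rw [Category.assoc, q1, Obj.lift_fst, jm, ← Category.assoc, Obj.lift_fst, Obj.lift_fst]
  · rw [Category.assoc, q1, Obj.lift_snd, jm, ← Category.assoc, Obj.lift_snd, Obj.lift_fst]

lemma jm_q2 : jm X Y ≫ q2 X Y = snd (X.prod X) Y ≫ diag Y := by
  apply hom_ext_prod
  · rw [Category.assoc, q2, Obj.lift_fst, jm, ← Category.assoc, Obj.lift_fst, Obj.lift_snd,
      Category.assoc, diag, Obj.lift_fst, Category.comp_id]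
  · rw [Category.assoc, q2, Obj.lift_snd, jm, ← Category.assoc, Obj.lift_snd, Obj.lift_snd,
      Category.assoc, diag, Obj.lift_snd, Category.comp_id]

lemma push_fst' (a : W.H X) (b : W.H Y) :
    W.push (fst X Y) (W.map (fst X Y) a * W.map (snd X Y) b) = W.tr Y b • a := by
  apply W.tr_ext
  intro c
  refine gr_induction (W.isInternal X) (p := fun c =>
    W.tr X (W.push (fst X Y) (W.map (fst X Y) a * W.map (snd X Y) b) * c) =
      W.tr X (W.tr Y b • a * c)) ?_ ?_ c
  · intro i c hc
    refine gr_induction (W.isInternal Y) (p := fun b =>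
      W.tr X (W.push (fst X Y) (W.map (fst X Y) a * W.map (snd X Y) b) * c) =
        W.tr X (W.tr Y b • a * c)) ?_ ?_ b
    · intro j b hb
      rw [W.tr_push, mul_assoc, W.comm (W.map_mem (snd X Y) hb) (W.map_mem (fst X Y) hc),
        mul_smul_comm, ← mul_assoc, ← map_mul, map_smul, W.tr_prod, smul_mul_assoc, map_smul,
        smul_eq_mul, smul_eq_mul]
      by_cases hj : j = 2 * Y.dim
      · rw [hj, mul_assoc, pow_mul]
        simp [mul_comm]
      · rw [W.tr_eq_zero hb hj]
        simp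
    · intro b b' h h'
      rw [map_add, mul_add, map_add, add_mul, map_add, h, h', map_add, add_smul, add_mul, map_add]
  · intro c c' h h'
    rw [mul_add, map_add, h, h', mul_add, map_add]

/-- The partial super trace is given by a correspondence. -/
lemma ptr_corr (γ : W.H ((X.prod Y).prod (X.prod Y))) :
    ptr W X Y (W.corr γ) = W.corr (W.push (fst (X.prod X) Y) (W.map (jm X Y) γ)) := by
  have key : ∀ (c : W.H (X.prod X)) (m : ℕ) (d : W.H (Y.prod Y)), d ∈ W.gr _ m →
      ptr W X Y (W.corr (W.map (q1 X Y) c * W.map (q2 X Y) d)) =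
      W.corr (W.push (fst (X.prod X) Y) (W.map (jm X Y) (W.map (q1 X Y) c * W.map (q2 X Y) d))) := by
    intro c m d hd
    rw [corr_ext_eq c hd, ptr_extOp, map_mul (W.map (jm X Y)), ← W.map_comp, ← W.map_comp, jm_q1,
      jm_q2, W.map_comp, push_fst', corr_smul, st_apply, W.trace_par_corr]
    rcases Nat.even_or_odd m with hm | hm
    · have : scal (W.isInternal X) (fun i => (-1 : W.K) ^ (m * i)) = 1 := by
        rw [← scal_one (W.isInternal X)]
        congr 1
        funext i
        rw [(hm.mul_right i).neg_one_pow]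
      rw [this, mul_one]
    · rw [W.tr_eq_zero (W.map_mem (diag Y) hd), zero_smul, zero_smul]
      intro h
      rw [h] at hm
      exact (Nat.not_even_iff_odd.2 hm) (even_two_mul _)
  have hlin : ∀ γ δ, ptr W X Y (W.corr γ) =
      W.corr (W.push (fst (X.prod X) Y) (W.map (jm X Y) γ)) → ptr W X Y (W.corr δ) =
      W.corr (W.push (fst (X.prod X) Y) (W.map (jm X Y) δ)) → ptr W X Y (W.corr (γ + δ)) =
      W.corr (W.push (fst (X.prod X) Y) (W.map (jm X Y) (γ + δ))) := by
    intro γ δ h h'
    rw [corr_add, map_add, h, h', map_add, map_add, corr_add]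
  refine W.kunneth_induction (p := fun γ => ptr W X Y (W.corr γ) =
    W.corr (W.push (fst (X.prod X) Y) (W.map (jm X Y) γ))) hlin ?_ γ
  intro _ _ α _ β _
  refine W.kunneth_induction (p := fun α => ptr W X Y (W.corr
    (W.map (fst (X.prod Y) (X.prod Y)) α * W.map (snd (X.prod Y) (X.prod Y)) β)) =
    W.corr (W.push (fst (X.prod X) Y) (W.map (jm X Y)
    (W.map (fst (X.prod Y) (X.prod Y)) α * W.map (snd (X.prod Y) (X.prod Y)) β)))) ?_ ?_ α
  · intro a a' h h'
    rw [map_add, add_mul]
    exact hlin _ _ h h'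
  intro i l a _ b hb
  refine W.kunneth_induction (p := fun β => ptr W X Y (W.corr
    (W.map (fst (X.prod Y) (X.prod Y)) (W.map (fst X Y) a * W.map (snd X Y) b) *
      W.map (snd (X.prod Y) (X.prod Y)) β)) =
    W.corr (W.push (fst (X.prod X) Y) (W.map (jm X Y)
    (W.map (fst (X.prod Y) (X.prod Y)) (W.map (fst X Y) a * W.map (snd X Y) b) *
      W.map (snd (X.prod Y) (X.prod Y)) β)))) ?_ ?_ β
  · intro a' a'' h h'
    rw [map_add, mul_add]
    exact hlin _ _ h h'
  intro j l' a' ha' b' hb'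
  have h1 : W.map (snd (X.prod Y) (X.prod Y)) (W.map (fst X Y) a') *
      W.map (fst (X.prod Y) (X.prod Y)) (W.map (snd X Y) b) =
      (-1 : W.K) ^ (j * l) • (W.map (fst (X.prod Y) (X.prod Y)) (W.map (snd X Y) b) *
        W.map (snd (X.prod Y) (X.prod Y)) (W.map (fst X Y) a')) :=
    W.comm (W.map_mem _ (W.map_mem _ ha')) (W.map_mem _ (W.map_mem _ hb))
  have h2 : W.map (fst (X.prod Y) (X.prod Y)) (W.map (fst X Y) a * W.map (snd X Y) b) *
      W.map (snd (X.prod Y) (X.prod Y)) (W.map (fst X Y) a' * W.map (snd X Y) b') =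
      (-1 : W.K) ^ (j * l) • (W.map (q1 X Y) (W.map (fst X X) a * W.map (snd X X) a') *
        W.map (q2 X Y) (W.map (fst Y Y) b * W.map (snd Y Y) b')) := by
    rw [q1_tmul, q2_tmul, map_mul (W.map (fst (X.prod Y) (X.prod Y))),
      map_mul (W.map (snd (X.prod Y) (X.prod Y))), mul_assoc (W.map (fst _ _) (W.map (fst X Y) a))
      (W.map (snd _ _) (W.map (fst X Y) a')), ← mul_assoc (W.map (snd _ _) (W.map (fst X Y) a')),
      h1, smul_mul_assoc, mul_smul_comm, smul_smul, ← pow_add, ← two_mul, pow_mul]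
    simp only [even_two, Even.neg_pow, one_pow, one_smul, mul_assoc]
  rw [h2, corr_smul, map_smul, key _ (l + l') _ (W.mul_mem (W.map_mem _ hb) (W.map_mem _ hb')),
    map_smul, map_smul, corr_smul]

/-- **Partial super traces of algebraic operators are algebraic.** -/
theorem kop_ptr {d : ℤ} {A : Module.End W.K (W.H (X.prod Y))}
    (hA : A ∈ KOp W (X.prod Y) (X.prod Y) d) : ptr W X Y A ∈ KOp W X X d := by
  induction hA using Submodule.span_induction with
  | mem x hx =>
    obtain ⟨p, hp, z, hz, rfl⟩ := hx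
    rw [dim_prod] at hp
    rw [ptr_corr]
    by_cases h0 : (X.dim : ℤ) + d < 0
    · have h1 := W.push_mem (fst (X.prod X) Y) (W.map_mem (jm X Y) (W.cl_mem hz))
      have e1 : (((X.prod X).prod Y).dim : ℤ) = X.dim + X.dim + Y.dim := by
        rw [dim_prod, dim_prod]; push_cast; ring
      have e2 : ((X.prod X).dim : ℤ) = X.dim + X.dim := by
        rw [dim_prod]; push_cast; ring
      rw [grZ_of_neg (by rw [e1, e2]; push_cast; push_cast at hp; omega)] at h1
      rw [(Submodule.mem_bot _).1 h1, corr_zero]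
      exact Submodule.zero_mem _
    · rw [← W.cl_pull, ← W.cl_push]
      push_cast at hp
      exact KOp.gen (p := (X.dim + d).toNat) (by omega)
        (ops.push_mem _ (ops.pull_mem _ hz) (by rw [dim_prod ((X.prod X)) Y]; omega))
  | zero => rw [map_zero]; exact Submodule.zero_mem _
  | add x y _ _ hx hy => rw [map_add]; exact Submodule.add_mem _ hx hy
  | smul a x _ hx => rw [map_smul]; exact Submodule.smul_mem _ _ hx

end Pool.Agent.Y112.QB
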