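import Pool.Agent.Y112.QB.Defs
import Pool.Agent.Y112.QB.Low

/-!
# The conjecture B for quotients of products
-/

open CategoryTheory AlgebraicGeometry

universe u v

namespace Pool.Agent.Y112.QB

open Pool.Agent.H914 VarClass Obj WeilCohomology Pool.Agent.W550.B

variable {k : Type u} [Field k] {𝒱 : VarClass k} {ops : CycleOps 𝒱}
  {W : WeilCohomology.{u, v} ops} {X Y Z : 𝒱.Obj} {G : Type} [Group G]

/-- The action of a group on the cohomology. -/
noncomputable def act (W : WeilCohomology.{u, v} ops) (ρ : G →* End X) :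
    G →* Module.End W.K (W.H X) where
  toFun g := (W.map (ρ g⁻¹)).toLinearMap
  map_one' := by
    rw [inv_one, map_one]
    apply LinearMap.ext
    intro a
    exact W.map_id X a
  map_mul' g h := by
    rw [mul_inv_rev, map_mul]
    apply LinearMap.ext
    intro a
    exact W.map_comp (ρ g⁻¹) (ρ h⁻¹) a

lemma act_apply (ρ : G →* End X) (g : G) (a : W.H X) : act W ρ g a = W.map (ρ g⁻¹) a := rfl

lemma act_mem (ρ : G →* End X) (g : G) : act W ρ g ∈ KOp W X X 0 :=
  (Pool.Agent.W534.qop_pull (W := W) (ρ g⁻¹)).kop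

lemma act_isHom (ρ : G →* End X) (g : G) : IsHom (W.gr X) 0 (act W ρ g) := by
  have := kop_opAlg.hom (act_mem (W := W) ρ g)
  simpa using this

lemma act_linInd {ρ : G →* End X} (h : ActsIndependently W ρ) :
    LinearIndependent W.K (act W ρ) :=
  h.comp (fun g => g⁻¹) inv_injective

lemma act_par (ρ : G →* End X) (g : G) :
    act W ρ g * par (W.isInternal X) = par (W.isInternal X) * act W ρ g := by
  apply gr_ext (W.isInternal X)
  intro i a ha
  have h1 : act W ρ g a ∈ W.gr X i := W.map_mem _ ha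
  rw [Module.End.mul_apply, Module.End.mul_apply, par, scal_apply _ _ ha, scal_apply _ _ h1,
    map_smul]

lemma map_bi (f : X ⟶ X) (g : Y ⟶ Y) (a : W.H X) (b : W.H Y) :
    W.map (bi f g) (W.map (fst X Y) a * W.map (snd X Y) b) =
      W.map (fst X Y) (W.map f a) * W.map (snd X Y) (W.map g b) := by
  rw [map_mul (W.map (bi f g)), ← W.map_comp, ← W.map_comp, bi, Obj.lift_fst, Obj.lift_snd,
    W.map_comp, W.map_comp]

lemma map_bi_eq (f : X ⟶ X) (g : Y ⟶ Y) : (W.map (bi f g)).toLinearMap =
    extOp W (W.map f).toLinearMap (W.map g).toLinearMap := by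
  apply ext_kunneth_lin
  intro a b
  rw [AlgHom.toLinearMap_apply, map_bi, extOp_tmul]
  rfl

lemma par_prod : par (W.isInternal (X.prod Y)) =
    extOp W (par (W.isInternal X)) (par (W.isInternal Y)) := by
  apply ext_kunneth_lin
  intro a b
  refine gr_induction (W.isInternal X) (p := fun a => par (W.isInternal (X.prod Y))
    (W.map (fst X Y) a * W.map (snd X Y) b) = extOp W (par (W.isInternal X))
    (par (W.isInternal Y)) (W.map (fst X Y) a * W.map (snd X Y) b)) ?_ ?_ a
  · intro i a ha
    refine gr_induction (W.isInternal Y) (p := fun b => par (W.isInternal (X.prod Y))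
      (W.map (fst X Y) a * W.map (snd X Y) b) = extOp W (par (W.isInternal X))
      (par (W.isInternal Y)) (W.map (fst X Y) a * W.map (snd X Y) b)) ?_ ?_ b
    · intro j b hb
      have h1 := W.mul_mem (W.map_mem (fst X Y) ha) (W.map_mem (snd X Y) hb)
      rw [extOp_tmul, par, scal_apply _ _ h1, par, scal_apply _ _ ha, par, scal_apply _ _ hb,
        map_smul, map_smul, smul_mul_smul_comm, pow_add]
    · intro b b' h h'
      rw [map_add, mul_add, map_add, map_add, h, h']
  · intro a a' h h'
    rw [map_add, add_mul, map_add, map_add, h, h']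

variable [Fintype G]

/-- The sum of the operators given by the elements of the group. -/
noncomputable def avg (W : WeilCohomology.{u, v} ops) (ρ : G →* End X) (σ : G →* End Y) :
    Module.End W.K (W.H (X.prod Y)) := ∑ g, extOp W (act W ρ g) (act W σ g)

lemma avg_eq (ρ : G →* End X) (σ : G →* End Y) (x : W.H (X.prod Y)) :
    ∑ g, W.map (bi (ρ g) (σ g)) x = avg W ρ σ x := by
  rw [avg, LinearMap.sum_apply]
  refine Fintype.sum_equiv (Equiv.inv G) _ _ fun g => ?_
  have h1 := congrArg (fun F => F x) (map_bi_eq (W := W) (ρ g) (σ g))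
  rw [Equiv.inv_apply]
  have h2 : act W ρ g⁻¹ = (W.map (ρ g)).toLinearMap := by
    change (W.map (ρ g⁻¹⁻¹)).toLinearMap = _
    rw [inv_inv]
  have h3 : act W σ g⁻¹ = (W.map (σ g)).toLinearMap := by
    change (W.map (σ g⁻¹⁻¹)).toLinearMap = _
    rw [inv_inv]
  rw [h2, h3]
  exact h1

lemma kop_st {ψ u : Module.End W.K (W.H Y)} (hψ : IsHom (W.gr Y) (-2) ψ)
    (hu : IsHom (W.gr Y) 0 u) : st W Y (ψ * u) = 0 := by
  rw [st_apply]
  have h1 : IsHom (W.gr Y) 0 (par (W.isInternal Y)) := isHom_scal _ _
  exact trace_isHom (W.isInternal Y) (d := 0 + (-2 + 0)) (by norm_num) (h1.mul (hψ.mul hu))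

/-- **The slices of an algebraic operator.** -/
theorem slice {ρ : G →* End X} {σ : G →* End Y} (hσ : ActsIndependently W σ) {d : ℤ}
    {φ φ' : Module.End W.K (W.H X)} {ψ : Module.End W.K (W.H Y)}
    (hψ : IsHom (W.gr Y) (-2) ψ) (hT : ∑ g, extOp W (φ * act W ρ g)
      (par (W.isInternal Y) * act W σ g) + ∑ g, extOp W (φ' * act W ρ g) (ψ * act W σ g) ∈
      KOp W (X.prod Y) (X.prod Y) d) : φ ∈ KOp W X X d := by
  classical
  obtain ⟨c, hc1, hc⟩ := exists_dual (act_linInd hσ)
  set u : Module.End W.K (W.H Y) := ∑ h, c h • act W σ h with hu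
  have huK : u ∈ KOp W Y Y 0 := Submodule.sum_mem _ fun h _ => Submodule.smul_mem _ _ (act_mem σ h)
  have huh : IsHom (W.gr Y) 0 u := by
    have := kop_opAlg.hom huK
    simpa using this
  have h1 : extOp W (1 : Module.End W.K (W.H X)) u ∈ KOp W (X.prod Y) (X.prod Y) 0 :=
    KOp.cast (KOp.ext (KOp.id X) huK) (by ring)
  have h2 := kop_opAlg.mul hT h1
  rw [add_zero] at h2
  have h3 := kop_ptr h2
  have e1 : ∀ g, st W Y (par (W.isInternal Y) * act W σ g * u) = if g = 1 then 1 else 0 := by
    intro g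
    rw [st_apply, mul_assoc, ← mul_assoc (par _), par_mul_par, one_mul, hu, Finset.mul_sum,
      map_sum]
    have e2 : ∀ h, LinearMap.trace W.K (W.H Y) (act W σ g * c h • act W σ h) =
        c h * LinearMap.trace W.K (W.H Y) (act W σ g * act W σ h) := by
      intro h
      rw [mul_smul_comm, map_smul, smul_eq_mul]
    simp only [e2]
    split_ifs with hg
    · subst hg
      simpa only [map_one, one_mul] using hc1
    · exact hc g hg
  have e3 : ∀ g, st W Y (ψ * act W σ g * u) = 0 := by
    intro g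
    rw [mul_assoc]
    have h4 := (act_isHom (W := W) σ g).mul huh
    rw [add_zero] at h4
    exact kop_st hψ h4
  rw [add_mul, Finset.sum_mul, Finset.sum_mul, map_add, map_sum, map_sum] at h3
  have e4 : ∀ g, ptr W X Y (extOp W (φ * act W ρ g) (par (W.isInternal Y) * act W σ g) *
      extOp W (1 : Module.End W.K (W.H X)) u) =
      (if g = 1 then (1 : W.K) else 0) • (φ * act W ρ g) := by
    intro g
    rw [extOp_mul, mul_one, ptr_extOp, e1]
  have e5 : ∀ g, ptr W X Y (extOp W (φ' * act W ρ g) (ψ * act W σ g) *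
      extOp W (1 : Module.End W.K (W.H X)) u) = 0 := by
    intro g
    rw [extOp_mul, mul_one, ptr_extOp, e3, zero_smul]
  simp only [e4, e5, Finset.sum_const_zero, add_zero, ite_smul, one_smul, zero_smul,
    Finset.sum_ite_eq', Finset.mem_univ, if_true, map_one, mul_one] at h3
  exact h3

end Pool.Agent.Y112.QB
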