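import Pool.Agent.H914R2.KDefs

/-!
# Finite groups acting on varieties and quotients of products: definitions
-/

open CategoryTheory AlgebraicGeometry

universe u v

namespace Pool.Agent.Y112.QC

section Alg

variable {K : Type*} [Field K] {A B : Type*} [Ring A] [Algebra K A] [Ring B] [Algebra K B]
  {G : Type} [Group G] [Fintype G]

/-- The endomorphisms `f g` of `A` are linearly independent over `K`. -/
def AreIndependent (f : G → (A →ₐ[K] A)) : Prop :=
  ∀ c : G → K, (∀ x, ∑ g, c g • f g x = 0) → ∀ g, c g = 0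

/-- The composite `q ∘ p` is the sum of the endomorphisms `f g` of `A`. -/
def ComposeToSum (f : G → (A →ₐ[K] A)) (p : A →ₗ[K] B) (q : B →ₗ[K] A) : Prop :=
  ∀ x, q (p x) = ∑ g, f g x

/-- The homomorphism `p` from `B` to `A` and the map `q` from `A` to `B` satisfy `p q = ∑ f g` and
`q p = |G|`. -/
def IsTransferPair (f : G → (A →ₐ[K] A)) (p : B →ₐ[K] A) (q : A →ₗ[K] B) : Prop :=
  (∀ x, p (q x) = ∑ g, f g x) ∧ ∀ z, q (p z) = (Fintype.card G : K) • z

/-- The element `∑ tr(f' (g h)) f g x`, the sum over `g ∈ G`. -/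
noncomputable def twist (f : G → (A →ₐ[K] A)) (f' : G → (B →ₐ[K] B)) (h : G) (x : A) : A :=
  ∑ g, LinearMap.trace K B (f' (g * h)).toLinearMap • f g x

/-- The operator `T` is `x ↦ F x` on the even part of `A` and zero on the odd part. -/
def IsEvenPartOf (gr : ℕ → Submodule K A) (F : A → A) (T : A →ₗ[K] A) : Prop :=
  ∀ i, ∀ x ∈ gr i, T x = if Even i then F x else 0

/-- The alternating sum `∑ (-1)^i tr(f | gr i)` is `c`: the operator `s` which is `(-1)^i` on
`gr i` satisfies `tr (s ∘ f) = c`. -/
def HasLefschetzNumber (gr : ℕ → Submodule K A) (f : A →ₐ[K] A) (c : K) : Prop :=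
  ∃ s : A →ₗ[K] A, (∀ i, ∀ x ∈ gr i, s x = (-1 : K) ^ i • x) ∧
    LinearMap.trace K A (s ∘ₗ f.toLinearMap) = c

end Alg

open Pool.Agent.H914 VarClass Obj WeilCohomology

variable {k : Type u} [Field k] {𝒱 : VarClass k} {ops : CycleOps 𝒱}

/-- An action of the group `G` on the variety `X`. -/
structure GAct (G : Type) [Group G] (X : 𝒱.Obj) where
  hom : G → (X ⟶ X)
  hom_one : hom 1 = 𝟙 X
  hom_mul : ∀ g h, hom (g * h) = hom h ≫ hom g

variable (W : WeilCohomology.{u, v} ops) {X Y Z : 𝒱.Obj} {G : Type} [Group G] [Fintype G]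

/-- The homomorphism `g^*` of `H(X)`. -/
def pb (ρ : GAct G X) (g : G) : W.H X →ₐ[W.K] W.H X := W.map (ρ.hom g)

/-- The diagonal action of `g` on `X × Y`. -/
noncomputable def bi (ρ : GAct G X) (σ : GAct G Y) (g : G) : X.prod Y ⟶ X.prod Y :=
  Obj.lift (fst X Y ≫ ρ.hom g) (snd X Y ≫ σ.hom g)

/-- The homomorphism `g^*` of `H(X × Y)` for the diagonal action. -/
noncomputable def pb2 (ρ : GAct G X) (σ : GAct G Y) (g : G) :
    W.H (X.prod Y) →ₐ[W.K] W.H (X.prod Y) := W.map (bi ρ σ g)

/-- Let the finite group `G` act on `X` and on `Y`, hence diagonally on `X × Y`.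
The morphism `π : X × Y → Z` of varieties of the same dimension has the properties of the quotient
map of `X × Y` by `G`: it is invariant under `G`, `π^* π_* = ∑ g^*` on the cohomology of `X × Y`,
and `π_* π^*` is the multiplication by the order of `G`. -/
structure IsQuotient (ρ : GAct G X) (σ : GAct G Y) (π : X.prod Y ⟶ Z) : Prop where
  dim_eq : Z.dim = X.dim + Y.dim
  invariant : ∀ g, bi ρ σ g ≫ π = π
  transfer : IsTransferPair (pb2 W ρ σ) (W.map π) (W.push π)

/-- The operators `g^*` on `H(X)`, `g ∈ G`, are linearly independent over the coefficient field;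
equivalently every irreducible representation of `G` occurs in `H(X)`. -/
def ActsIndependently (ρ : GAct G X) : Prop := AreIndependent (pb W ρ)

/-- The sign conjecture, with coefficients in `K`, for the part of `H(X)` belonging to the
irreducible representations of `G` whose duals occur in `H(Y)`: for each `h ∈ G` some `K`-linear
combination of algebraic correspondences acts on the even cohomology of `X` as the operator
`twist h`, the sum of the `tr((g h)^* | H(Y)) g^*` over `g ∈ G`, and as zero on the odd
cohomology (for `h ∈ G` the operators `twist h` span the part of the group algebra belonging to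
those representations). -/
def SignOnPart (ρ : GAct G X) (σ : GAct G Y) : Prop :=
  ∀ h : G, ∃ γ ∈ spanCycles W (X.prod X) X.dim,
    IsEvenPartOf (W.gr X) (twist (pb W ρ) (pb W σ) h) (W.corr γ)

/-- The `G`-invariants of the motive of `X × Y` are, with coefficients, a direct summand of a twist
of the motive of `Z`: there are `K`-linear combinations of algebraic correspondences `a` from
`X × Y` to `Z` and `b` from `Z` to `X × Y`, of opposite degrees, with `b ∘ a = ∑ g^*`. -/
def ContainsInvariants (ρ : GAct G X) (σ : GAct G Y) (Z : 𝒱.Obj) : Prop :=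
  ∃ d : ℤ, ∃ a ∈ spanCycles W ((X.prod Y).prod Z) ((X.prod Y).dim + d),
    ∃ b ∈ spanCycles W (Z.prod (X.prod Y)) (Z.dim - d),
      ComposeToSum (pb2 W ρ σ) (W.corr a) (W.corr b)

/-- The Lefschetz number `∑ (-1)^i tr(f^* | H^i(X))` of `f` is `c`. -/
def LefschetzNumberIs (f : X ⟶ X) (c : W.K) : Prop := HasLefschetzNumber (W.gr X) (W.map f) c

end Pool.Agent.Y112.QC
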