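import Pool.Agent.Y112.QB.Short

/-!
# The Kunneth type conjecture for a part of the cohomology: definition
-/

open CategoryTheory AlgebraicGeometry

universe u v

namespace Pool.Agent.Y112.QC

/-- The operator `T` is `x ↦ F x` on `gr i` and zero on `gr j` for `j ≠ i`. -/
def IsDegreePartOf {K : Type*} [Field K] {A : Type*} [Ring A] [Algebra K A]
    (gr : ℕ → Submodule K A) (i : ℕ) (F : A → A) (T : A →ₗ[K] A) : Prop :=
  ∀ j, ∀ x ∈ gr j, T x = if j = i then F x else 0

open Pool.Agent.H914 VarClass Obj WeilCohomology

variable {k : Type u} [Field k] {𝒱 : VarClass k} {ops : CycleOps 𝒱}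
  (W : WeilCohomology.{u, v} ops) {X Y : 𝒱.Obj} {G : Type} [Group G] [Fintype G]

/-- The Kunneth type conjecture, with coefficients in `K`, for the part of `H(X)` belonging to the
irreducible representations of `G` whose duals occur in `H(Y)`: for each degree `i` and each
`h ∈ G` some `K`-linear combination of algebraic correspondences acts on `H^i(X)` as the operator
`twist h`, the sum of the `tr((g h)^* | H(Y)) g^*` over `g ∈ G`, and as zero on the other
`H^j(X)`. -/
def KunnethOnPart (ρ : GAct G X) (σ : GAct G Y) : Prop :=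
  ∀ (i : ℕ) (h : G), ∃ γ ∈ spanCycles W (X.prod X) X.dim,
    IsDegreePartOf (W.gr X) i (twist (pb W ρ) (pb W σ) h) (W.corr γ)

end Pool.Agent.Y112.QC
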