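import Pool.Agent.Y112.QB.Main

/-!
# The conjecture B for quotients of products: conclusion
-/

open CategoryTheory AlgebraicGeometry

universe u v

namespace Pool.Agent.Y112.QB

open Pool.Agent.H914 VarClass Obj WeilCohomology Pool.Agent.W550.B

variable {k : Type u} [Field k] {𝒱 : VarClass k} {ops : CycleOps 𝒱}
  {W : WeilCohomology.{u, v} ops} {X Y Z : 𝒱.Obj} {G : Type} [Group G]

lemma swap_swap (X Y : 𝒱.Obj) : swap X Y ≫ swap Y X = 𝟙 (X.prod Y) := by
  apply hom_ext_prod
  · rw [Category.assoc, swap_fst, swap_snd, Category.id_comp]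
  · rw [Category.assoc, swap_snd, swap_fst, Category.id_comp]

lemma push_swap (x : W.H (Y.prod X)) : W.push (swap Y X) x = W.map (swap X Y) x := by
  apply W.tr_ext
  intro c
  rw [W.tr_push, ← tr_swap (W.map (swap X Y) x * c), map_mul (W.map (swap Y X)), ← W.map_comp,
    swap_swap, W.map_id]

lemma bi_swap (f : X ⟶ X) (g : Y ⟶ Y) : bi g f ≫ swap Y X = swap Y X ≫ bi f g := by
  apply hom_ext_prod
  · rw [Category.assoc, Category.assoc, swap_fst, bi, bi, Obj.lift_snd, Obj.lift_fst,
      ← Category.assoc, swap_fst]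
  · rw [Category.assoc, Category.assoc, swap_snd, bi, bi, Obj.lift_snd, Obj.lift_fst,
      ← Category.assoc, swap_snd]

lemma IsQuotient.symm [Fintype G] {ρ : G →* End X} {σ : G →* End Y} {π : X.prod Y ⟶ Z}
    (h : IsQuotient W ρ σ π) : IsQuotient W σ ρ (swap Y X ≫ π) where
  dim_eq := by rw [h.dim_eq, add_comm]
  invariant g := by rw [← Category.assoc, bi_swap, Category.assoc, h.invariant]
  pull_push x := by
    rw [W.map_comp, W.push_comp, h.pull_push, map_sum]
    refine Finset.sum_congr rfl fun g _ => ?_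
    rw [← W.map_comp, ← bi_swap, W.map_comp, push_swap, ← W.map_comp (swap Y X) (swap X Y),
      swap_swap, W.map_id]
  push_pull z := by
    rw [W.map_comp, W.push_comp, push_swap, ← W.map_comp (swap X Y) (swap Y X), swap_swap,
      W.map_id, h.push_pull]

lemma lefschetzNumber_eq (f : X ⟶ X) : lefschetzNumber W f =
    LinearMap.trace W.K (W.H X) (par (W.isInternal X) * (W.map f).toLinearMap) := by
  have h1 : par (W.isInternal X) = ∑ i ∈ Finset.range (2 * X.dim + 1),
      ((-1 : W.K) ^ i) • proj (W.isInternal X) i :=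
    scal_eq_sum (W.isInternal X) (N := 2 * X.dim + 1) (fun i hi => W_hbd i hi) _
  rw [lefschetzNumber, h1, Finset.sum_mul, map_sum]
  refine Finset.sum_congr rfl fun i _ => ?_
  rw [smul_mul_assoc, map_smul, smul_eq_mul]

lemma independent_of_lefschetz [Fintype G] {σ : G →* End Y} (h1 : lefschetzNumber W (𝟙 Y) ≠ 0)
    (h : ∀ g, g ≠ 1 → lefschetzNumber W (σ g) = 0) : ActsIndependently W σ := by
  have h2 : LinearIndependent W.K (act W σ) := by
    apply linInd_of_lefschetz (p := par (W.isInternal Y))
    · rw [lefschetzNumber_eq] at h1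
      intro h0
      apply h1
      have : (W.map (𝟙 Y)).toLinearMap = (1 : Module.End W.K (W.H Y)) := by
        apply LinearMap.ext
        intro a
        exact W.map_id Y a
      rw [this, mul_one, h0]
    · intro g hg
      have := h g⁻¹ (by simpa using hg)
      rw [lefschetzNumber_eq] at this
      exact this
  have h3 := h2.comp (fun g : G => g⁻¹) inv_injective
  have e : (act W σ ∘ fun g : G => g⁻¹) = fun g => (W.map (σ g)).toLinearMap := by
    funext g
    change (W.map (σ g⁻¹⁻¹)).toLinearMap = _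
    rw [inv_inv]
  rw [e] at h3
  exact h3

/-- **Main theorem.** -/
theorem main [Fintype G] {ρ : G →* End X} {σ : G →* End Y} {π : X.prod Y ⟶ Z}
    (h : IsQuotient W ρ σ π) {D : X.Cycles} {E : Y.Cycles} {F : Z.Cycles}
    (hD : IsInvariantLefschetz W ρ D) (hE : IsInvariantLefschetz W σ E)
    (hF : IsLefschetzDivisor W Z F) :
    (ActsIndependently W σ → LefschetzB W Z F → LefschetzB W X D) ∧
    (ActsIndependently W ρ → LefschetzB W Z F → LefschetzB W Y E) ∧
    (ActsIndependently W ρ → ActsIndependently W σ →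
      (LefschetzB W Z F ↔ LefschetzB W X D ∧ LefschetzB W Y E)) := by
  refine ⟨fun hσ hB => forward h hD hE hF hσ hB,
    fun hρ hB => forward h.symm hE hD hF hρ hB, fun hρ hσ => ⟨fun hB =>
      ⟨forward h hD hE hF hσ hB, forward h.symm hE hD hF hρ hB⟩, fun hB => ?_⟩⟩
  exact backward h hD hE hF hB.1 hB.2

end Pool.Agent.Y112.QB
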